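import Pool.Agent.N261.NK.EL

/-!
# Comparison with spherical shells, reflections
-/

set_option autoImplicit false

namespace Pool.Agent.N261.NK

open MeasureTheory Set Filter Topology Metric
open Pool.Agent.TH791.Cl Pool.Agent.TH791.Nw Pool.Agent.R999.MinP Pool.Agent.R999.Pot
open scoped ENNReal RealInnerProductSpace

/-- density of the shell `k ≤ |x| < R` -/
noncomputable def sh (k R : ℝ) (x : E3) : ℝ :=
  (4/3*Real.pi*R^3) * gb R 0 x - (4/3*Real.pi*k^3) * gb k 0 x

lemma one_gb {R : ℝ} (hR : 0 < R) (x : E3) :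
    (4/3*Real.pi*R^3) * gb R 0 x = (ball (0:E3) R).indicator (fun _ => (1:ℝ)) x := by
  have := Real.pi_pos
  unfold gb
  by_cases hx : x ∈ ball (0:E3) R
  · rw [indicator_of_mem hx, indicator_of_mem hx]
    field_simp
  · rw [indicator_of_notMem hx, indicator_of_notMem hx, mul_zero]

lemma sh_nonneg {k R : ℝ} (hk : 0 < k) (hR : k < R) (x : E3) : 0 ≤ sh k R x := by
  unfold sh
  rw [one_gb (hk.trans hR), one_gb hk]
  by_cases hx : x ∈ ball (0:E3) k
  · rw [indicator_of_mem hx, indicator_of_mem (ball_subset_ball hR.le hx)]; simp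
  · rw [indicator_of_notMem hx]
    rw [sub_zero]
    exact indicator_nonneg (fun _ _ => zero_le_one) x

lemma sh_le {k R : ℝ} (hk : 0 < k) (hR : k < R) (x : E3) : sh k R x ≤ 1 := by
  unfold sh
  rw [one_gb (hk.trans hR), one_gb hk]
  have h1 : 0 ≤ (ball (0:E3) k).indicator (fun _ => (1:ℝ)) x := indicator_nonneg (fun _ _ => zero_le_one) x
  have h2 : (ball (0:E3) R).indicator (fun _ => (1:ℝ)) x ≤ 1 := by
    by_cases hx : x ∈ ball (0:E3) R
    · rw [indicator_of_mem hx]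
    · rw [indicator_of_notMem hx]; exact zero_le_one
  linarith

lemma sh_zero {k R : ℝ} (hk : 0 < k) (hR : k < R) {x : E3} (hx : x ∉ ball (0:E3) R) : sh k R x = 0 := by
  unfold sh
  rw [one_gb (hk.trans hR), one_gb hk, indicator_of_notMem hx,
    indicator_of_notMem fun h => hx (ball_subset_ball hR.le h), sub_zero]

lemma sh_one {k R : ℝ} (hk : 0 < k) (hR : k < R) {x : E3} (hx : x ∈ ball (0:E3) R)
    (hx2 : x ∉ ball (0:E3) k) : sh k R x = 1 := by
  unfold sh
  rw [one_gb (hk.trans hR), one_gb hk, indicator_of_mem hx, indicator_of_notMem hx2, sub_zero]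

lemma sh_nice (k R : ℝ) : Nice (sh k R) :=
  pd_nice _ _ (nice_mul _ (gb_nice R 0)) (nice_mul _ (gb_nice k 0))

lemma pot_sh {k R : ℝ} (hk : 0 < k) (hR : k < R) (x : E3) :
    pot (sh k R) x = (4/3*Real.pi*R^3) * Gf R ‖x‖ - (4/3*Real.pi*k^3) * Gf k ‖x‖ := by
  have : sh k R = fun x => (4/3*Real.pi*R^3) * gb R 0 x - (4/3*Real.pi*k^3) * gb k 0 x := rfl
  rw [this, pot_sub (nice_mul _ (gb_nice R 0)) (nice_mul _ (gb_nice k 0)), pot_mul, pot_mul,
    pot_gb (hk.trans hR), pot_gb hk, sub_zero]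

lemma pot_sh_in {k R : ℝ} (hk : 0 < k) (hR : k < R) {x : E3} (hx : ‖x‖ ≤ k) :
    pot (sh k R) x = 2 * Real.pi * (R ^ 2 - k ^ 2) := by
  rw [pot_sh hk hR]
  have hR0 : 0 < R := hk.trans hR
  rcases hx.lt_or_eq with h | h
  · rw [Gf, Gf, if_pos h, if_pos (h.trans hR)]
    field_simp
    ring
  · rw [Gf, Gf, h, if_neg (lt_irrefl k), if_pos hR]
    field_simp
    ring

lemma pot_sh_out {k R : ℝ} (hk : 0 < k) (hR : k < R) {x : E3} (hx : k < ‖x‖) :
    pot (sh k R) x < 2 * Real.pi * (R ^ 2 - k ^ 2) := by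
  rw [pot_sh hk hR]
  have hR0 : 0 < R := hk.trans hR
  have hpi := Real.pi_pos
  obtain ⟨r, hr⟩ : ∃ r, r = ‖x‖ := ⟨_, rfl⟩
  rw [← hr] at hx ⊢
  have hr0 : 0 < r := hk.trans hx
  rcases lt_or_ge r R with h | h
  · rw [Gf, Gf, if_neg (not_lt.2 hx.le), if_pos h]
    have e : 2 * Real.pi * (R ^ 2 - k ^ 2) - (4 / 3 * Real.pi * R ^ 3 * ((3 - r ^ 2 / R ^ 2) / (2 * R)) -
        4 / 3 * Real.pi * k ^ 3 * (1 / r)) = 2 * Real.pi / (3 * r) * ((r - k) ^ 2 * (r + 2 * k)) := by
      field_simp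
      ring
    have h2 : 0 < 2 * Real.pi / (3 * r) * ((r - k) ^ 2 * (r + 2 * k)) := by
      have : 0 < r - k := by linarith
      positivity
    linarith
  · rw [Gf, Gf, if_neg (not_lt.2 hx.le), if_neg (not_lt.2 h)]
    have e : 4 / 3 * Real.pi * R ^ 3 * (1 / r) - 4 / 3 * Real.pi * k ^ 3 * (1 / r) =
        4 / 3 * Real.pi * (R ^ 3 - k ^ 3) / r := by ring
    rw [e, div_lt_iff₀ hr0]
    have h2 : 0 < (R - k) ^ 2 * (R + 2 * k) := by
      have : 0 < R - k := by linarith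
      positivity
    have h3 : 0 < R ^ 2 - k ^ 2 := by nlinarith
    have h4 : 2 * Real.pi * (R ^ 2 - k ^ 2) * R ≤ 2 * Real.pi * (R ^ 2 - k ^ 2) * r :=
      mul_le_mul_of_nonneg_left h (by positivity)
    refine lt_of_lt_of_le ?_ h4
    have h5 : 2 * Real.pi * (R ^ 2 - k ^ 2) * R - 4 / 3 * Real.pi * (R ^ 3 - k ^ 3) =
      2 / 3 * Real.pi * ((R - k) ^ 2 * (R + 2 * k)) := by ring
    have h6 : 0 < 2 / 3 * Real.pi * ((R - k) ^ 2 * (R + 2 * k)) := by positivity
    linarith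

lemma pot_sh_le {k R : ℝ} (hk : 0 < k) (hR : k < R) (x : E3) :
    pot (sh k R) x ≤ 2 * Real.pi * (R ^ 2 - k ^ 2) := by
  rcases le_or_gt ‖x‖ k with h | h
  · exact (pot_sh_in hk hR h).le
  · exact (pot_sh_out hk hR h).le

section
variable {U : Set E3} {f : E3 → ℝ} {c : ℝ}

/-- comparison with an inner shell -/
theorem inner_cmp (hb : Bornology.IsBounded U) (hf : Adm U f)
    (hEL : ∀ᵐ x, x ∈ U → pot f x < c → f x = 1) {k R : ℝ} (hk : 0 < k) (hR : k < R)
    (hc : c = 2 * Real.pi * (R ^ 2 - k ^ 2)) (hsub : ball (0:E3) R ⊆ U) (x : E3) :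
    pot (sh k R) x ≤ pot f x := by
  have nf := hf.nice hb
  have h := min_pr (pd_nice f (sh k R) nf (sh_nice k R)) (by
    filter_upwards [hEL] with y hy hneg
    rw [pot_sub nf (sh_nice k R)] at hneg
    have h1 := pot_sh_le hk hR y
    rw [← hc] at h1
    by_cases hU : y ∈ U
    · rw [hy hU (by linarith)]
      have := sh_le hk hR y
      linarith
    · rw [hf.supp y hU, sh_zero hk hR fun h => hU (hsub h)]
      simp) x
  rw [pot_sub nf (sh_nice k R)] at h
  linarith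

/-- comparison with an outer shell -/
theorem outer_cmp (hb : Bornology.IsBounded U) (hf : Adm U f)
    (hle : ∀ x, pot f x ≤ c) {k R : ℝ} (hk : 0 < k) (hR : k < R)
    (hc : c = 2 * Real.pi * (R ^ 2 - k ^ 2)) (hsub : U ⊆ ball (0:E3) R) (x : E3) :
    pot f x ≤ pot (sh k R) x := by
  have nf := hf.nice hb
  have h := min_pr (pd_nice (sh k R) f (sh_nice k R) nf) (by
    refine Eventually.of_forall fun y hneg => ?_
    rw [pot_sub (sh_nice k R) nf] at hneg
    have h1 := hle y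
    have h2 : k < ‖y‖ := by
      by_contra h3
      push Not at h3
      have := pot_sh_in hk hR h3
      rw [← hc] at this
      linarith
    by_cases hU : y ∈ U
    · rw [sh_one hk hR (hsub hU) (by simpa using h2.le)]
      have := hf.le1 y
      linarith
    · rw [hf.supp y hU]
      have := sh_nonneg hk hR y
      linarith) x
  rw [pot_sub (sh_nice k R) nf] at h
  linarith

end

/-! ### reflections -/

/-- reflection in the hyperplane through `m` orthogonal to `v` -/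
noncomputable def rf (m v : E3) (z : E3) : E3 := z - (2 * (⟪v, z - m⟫ / ‖v‖ ^ 2)) • v

lemma rf_eq (m v z : E3) : rf m v z = (Submodule.span ℝ {v})ᗮ.reflection (z - m) + m := by
  rw [Submodule.reflection_orthogonal_apply, Submodule.reflection_singleton_apply]
  unfold rf
  simp only [RCLike.ofReal_real_eq_id, id_eq]
  module

/-- the reflection as an isometry -/
noncomputable def rfE (m v : E3) : E3 ≃ᵢ E3 :=
  (IsometryEquiv.subRight m).trans
    (((Submodule.span ℝ {v})ᗮ.reflection).toIsometryEquiv.trans (IsometryEquiv.addRight m))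

lemma rfE_apply (m v z : E3) : rfE m v z = rf m v z := by
  rw [rf_eq]; rfl

lemma rf_mp (m v : E3) : MeasurePreserving (rf m v) := by
  have h1 : rf m v = (fun z => z + m) ∘ ((Submodule.span ℝ {v})ᗮ.reflection) ∘ fun z => z - m := by
    funext z
    exact rf_eq m v z
  rw [h1]
  exact (measurePreserving_add_right volume m).comp
    (((Submodule.span ℝ {v})ᗮ.reflection).measurePreserving.comp (measurePreserving_sub_right volume m))

lemma rf_me (m v : E3) : MeasurableEmbedding (rf m v) := by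
  have : rf m v = (rfE m v).toHomeomorph := by
    funext z
    exact (rfE_apply m v z).symm
  rw [this]
  exact (rfE m v).toHomeomorph.measurableEmbedding

lemma rf_isom (m v x y : E3) : ‖rf m v x - rf m v y‖ = ‖x - y‖ := by
  rw [← rfE_apply, ← rfE_apply, ← dist_eq_norm, (rfE m v).dist_eq, dist_eq_norm]

lemma pot_rf (m v : E3) (f : E3 → ℝ) (x : E3) : pot (fun y => f (rf m v y)) x = pot f (rf m v x) := by
  unfold pot
  have h := (rf_mp m v).integral_comp (rf_me m v) (fun y => f y / ‖rf m v x - y‖)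
  rw [← h]
  refine integral_congr_ae (Eventually.of_forall fun y => ?_)
  show f (rf m v y) / ‖x - y‖ = f (rf m v y) / ‖rf m v x - rf m v y‖
  rw [rf_isom]

lemma nice_rf (m v : E3) {f : E3 → ℝ} (hf : Nice f) : Nice (fun y => f (rf m v y)) := by
  refine ⟨hf.1.comp (rf_mp m v).measurable, ?_, ?_⟩
  · exact ((rf_mp m v).integrable_comp_emb (rf_me m v)).2 hf.2.1
  · exact ((rf_mp m v).integrable_comp_emb (rf_me m v)).2 hf.2.2

lemma rf_fix {m v z : E3} (h : ⟪v, z - m⟫ = 0) : rf m v z = z := by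
  unfold rf
  rw [h]; simp

lemma rf_dist {m v : E3} (hv : v ≠ 0) (z a : E3) :
    ‖rf m v z - a‖ ^ 2 = ‖z - a‖ ^ 2 - 4 * ⟪v, z - m⟫ * ⟪v, m - a⟫ / ‖v‖ ^ 2 := by
  have hv2 : ‖v‖ ^ 2 ≠ 0 := by positivity
  have e : rf m v z - a = (z - a) - (2 * (⟪v, z - m⟫ / ‖v‖ ^ 2)) • v := by
    unfold rf; abel
  rw [e, norm_sub_sq_real, real_inner_smul_right, norm_smul, mul_pow, Real.norm_eq_abs, sq_abs]
  have e2 : ⟪z - a, v⟫ = ⟪v, z - m⟫ + ⟪v, m - a⟫ := by
    rw [real_inner_comm, ← inner_add_right]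
    congr 1
    abel
  rw [e2]
  field_simp
  ring

lemma rf_swap {x y : E3} (h : y - x ≠ 0) : rf ((1/2 : ℝ) • (x + y)) (y - x) y = x := by
  unfold rf
  have hv2 : ‖y - x‖ ^ 2 ≠ 0 := by positivity
  have e : y - (1/2 : ℝ) • (x + y) = (1/2 : ℝ) • (y - x) := by module
  rw [e, real_inner_smul_right, real_inner_self_eq_norm_sq]
  have e2 : (2 * (1 / 2 * ‖y - x‖ ^ 2 / ‖y - x‖ ^ 2)) = 1 := by field_simp
  rw [e2]
  module

section
variable {U : Set E3} {f : E3 → ℝ} {c : ℝ}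

/-- **reflection principle** -/
theorem refl_pr (hb : Bornology.IsBounded U) (hf : Adm U f)
    (hEL : ∀ᵐ x, x ∈ U → pot f x < c → f x = 1) (hle : ∀ x, pot f x ≤ c)
    {m v : E3} (hrf : ∀ z ∈ U, 0 < ⟪v, z - m⟫ → rf m v z ∈ U) {y : E3} (hy : 0 < ⟪v, y - m⟫) :
    pot f y ≤ pot f (rf m v y) := by
  have nf := hf.nice hb
  have nr := nice_rf m v nf
  have hcont : Continuous fun z : E3 => ⟪v, z - m⟫ := by fun_prop
  have hΩ : IsOpen {z : E3 | 0 < ⟪v, z - m⟫} := isOpen_lt continuous_const hcont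
  have hcl : closure {z : E3 | 0 < ⟪v, z - m⟫} ⊆ {z : E3 | 0 ≤ ⟪v, z - m⟫} :=
    closure_minimal (fun z hz => (show (0:ℝ) < ⟪v, z - m⟫ from hz).le) (isClosed_le continuous_const hcont)
  have hEL' : ∀ᵐ x, rf m v x ∈ U → pot f (rf m v x) < c → f (rf m v x) = 1 :=
    (rf_mp m v).quasiMeasurePreserving.ae hEL
  have h := max_pr (pd_nice _ _ nr nf) hΩ (by
    intro x hx hx2
    have h1 : 0 ≤ ⟪v, x - m⟫ := hcl hx
    have h2 : ¬ (0 < ⟪v, x - m⟫) := hx2
    have h3 : ⟪v, x - m⟫ = 0 := le_antisymm (not_lt.1 h2) h1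
    rw [pot_sub nr nf, pot_rf, rf_fix h3, sub_self]) (by
    filter_upwards [hEL'] with x hx hxΩ hneg
    rw [pot_sub nr nf, pot_rf] at hneg
    have h1 := hle x
    by_cases hU : x ∈ U
    · rw [hx (hrf x hU hxΩ) (by linarith)]
      have := hf.le1 x
      linarith
    · rw [hf.supp x hU]
      have := hf.nn (rf m v x)
      linarith) y hy
  rw [pot_sub nr nf, pot_rf] at h
  linarith

end

end Pool.Agent.N261.NK
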