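import Pool.Agent.N261.NK.Exist

/-!
# Euler-Lagrange conditions and the contact set
-/

set_option autoImplicit false

namespace Pool.Agent.N261.NK

open MeasureTheory Set Filter Topology Metric
open Pool.Agent.TH791.Cl Pool.Agent.TH791.Nw Pool.Agent.R999.MinP Pool.Agent.R999.Pot
open scoped ENNReal

lemma adm_comb {U : Set E3} {f g : E3 → ℝ} (hf : Adm U f) (hg : Adm U g) {t : ℝ} (ht0 : 0 ≤ t)
    (ht1 : t ≤ 1) : Adm U fun x => (1 - t) * f x + t * g x := by
  refine ⟨(hf.meas.const_mul _).add (hg.meas.const_mul _), fun x => ?_, fun x => ?_, fun x hx => ?_⟩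
  · have h1 := hf.nn x
    have h2 := hg.nn x
    have h3 : 0 ≤ 1 - t := by linarith
    positivity
  · have h1 := hf.le1 x
    have h2 := hg.le1 x
    nlinarith
  · simp only [hf.supp x hx, hg.supp x hx]
    ring

lemma var_ineq {U : Set E3} (hb : Bornology.IsBounded U) {c : ℝ} {f : E3 → ℝ} (hf : Adm U f)
    (hmin : ∀ g, Adm U g → En c f ≤ En c g) {g : E3 → ℝ} (hg : Adm U g) :
    ∫ x, (f x - g x) * (pot f x - c) ≤ 0 := by
  have nf := hf.nice hb
  have ng := hg.nice hb
  have nd := pd_nice f g nf ng
  have i1 : Integrable fun x => (f x - g x) * (pot f x - c) := int_mul_pot nd nf c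
  have i2 : Integrable fun x => (f x - g x) * (pot g x - c) := int_mul_pot nd ng c
  set a := ∫ x, (f x - g x) * (pot f x - c) with ha
  set b := ∫ x, (f x - g x) * (pot g x - c) with hbdef
  have key : ∀ t : ℝ, 0 < t → t ≤ 1 → (1 - t) * a + t * b ≤ 0 := by
    intro t ht ht1
    have hft := adm_comb hf hg ht.le ht1
    have nft := hft.nice hb
    have h1 := grad_ineq nf nft c
    have h2 := hmin _ hft
    have hp : ∀ x, pot (fun x => (1 - t) * f x + t * g x) x = (1 - t) * pot f x + t * pot g x := by
      intro x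
      rw [pot_add (nice_mul _ nf) (nice_mul _ ng), pot_mul, pot_mul]
    have e : ∫ x, (f x - ((1 - t) * f x + t * g x)) *
        (pot (fun x => (1 - t) * f x + t * g x) x - c) = t * ((1 - t) * a + t * b) := by
      rw [ha, hbdef, ← integral_const_mul, ← integral_const_mul, ← integral_add (i1.const_mul _) (i2.const_mul _),
        ← integral_const_mul]
      refine integral_congr_ae (Eventually.of_forall fun x => ?_)
      simp only [hp]
      ring
    rw [e] at h1
    by_contra hc
    push Not at hc
    have := mul_pos ht hc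
    linarith
  by_contra hc
  push Not at hc
  have hK : 0 < 2 * (|a - b| + 1) := by positivity
  set t := min 1 (a / (2 * (|a - b| + 1))) with ht
  have ht0 : 0 < t := lt_min one_pos (div_pos hc hK)
  have ht2 : t * (2 * (|a - b| + 1)) ≤ a := by
    rw [← le_div_iff₀ hK]
    exact min_le_right _ _
  have := key t ht0 (min_le_left _ _)
  have h3 := le_abs_self (a - b)
  nlinarith

/-- **Euler-Lagrange** -/
theorem exists_EL {U : Set E3} (hU : MeasurableSet U) (hb : Bornology.IsBounded U) {c : ℝ} (hc : 0 ≤ c) :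
    ∃ f, Adm U f ∧ (∀ᵐ x, x ∈ U → pot f x < c → f x = 1) ∧ ∀ x, pot f x ≤ c := by
  obtain ⟨f, hf, hmin⟩ := exists_minimizer U hU hb c
  have nf := hf.nice hb
  have hcont := pot_cont nf
  have hS : MeasurableSet (U ∩ {x | pot f x < c}) := hU.inter (measurableSet_lt hcont.measurable measurable_const)
  set g : E3 → ℝ := (U ∩ {x | pot f x < c}).indicator fun _ => 1 with hg
  have hga : Adm U g := by
    refine ⟨measurable_const.indicator hS, fun x => indicator_nonneg (fun _ _ => zero_le_one) x, ?_, ?_⟩
    · intro x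
      by_cases hx : x ∈ U ∩ {x | pot f x < c}
      · rw [hg, indicator_of_mem hx]
      · rw [hg, indicator_of_notMem hx]; exact zero_le_one
    · intro x hx
      rw [hg, indicator_of_notMem fun h => hx h.1]
  have h1 := var_ineq hb hf hmin hga
  have hnn : ∀ x, 0 ≤ (f x - g x) * (pot f x - c) := by
    intro x
    by_cases hx : x ∈ U
    · by_cases hx2 : pot f x < c
      · rw [hg, indicator_of_mem (show x ∈ U ∩ {x | pot f x < c} from ⟨hx, hx2⟩)]
        have := hf.le1 x
        nlinarith
      · rw [hg, indicator_of_notMem fun h => hx2 h.2]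
        push Not at hx2
        have := hf.nn x
        have : 0 ≤ pot f x - c := by linarith
        rw [sub_zero]
        positivity
    · rw [hga.supp x hx, hf.supp x hx]
      simp
  have h2 : ∫ x, (f x - g x) * (pot f x - c) = 0 := le_antisymm h1 (integral_nonneg hnn)
  have h3 := (integral_eq_zero_iff_of_nonneg hnn (int_mul_pot (pd_nice f g nf (hga.nice hb)) nf c)).1 h2
  have hEL1 : ∀ᵐ x, x ∈ U → pot f x < c → f x = 1 := by
    filter_upwards [h3] with x hx hxU hxc
    have h4 : (f x - g x) * (pot f x - c) = 0 := hx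
    rw [hg, indicator_of_mem (show x ∈ U ∩ {x | pot f x < c} from ⟨hxU, hxc⟩)] at h4
    rcases mul_eq_zero.1 h4 with h5 | h5
    · linarith
    · linarith
  have hEL2 : ∀ᵐ x, c < pot f x → f x = 0 := by
    filter_upwards [h3] with x hx hxc
    have h4 : (f x - g x) * (pot f x - c) = 0 := hx
    rw [hg, indicator_of_notMem fun h => absurd h.2 (not_lt.2 hxc.le)] at h4
    rcases mul_eq_zero.1 h4 with h5 | h5
    · linarith
    · linarith
  refine ⟨f, hf, hEL1, fun x => ?_⟩
  have h5 := min_pr' (nice_neg nf) (c := -c) (by linarith) (by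
    filter_upwards [hEL2] with y hy hyc
    rw [pot_neg] at hyc
    rw [hy (by linarith)]
    simp) x
  rw [pot_neg] at h5
  linarith

lemma Yf_lower {s r : ℝ} (hs : 0 < s) (hr : 0 < r) (h : r ≤ s / 2) : 1 / (2 * s) ≤ Yf s r := by
  rw [Yf_eq hs hr (by linarith)]
  rw [div_le_div_iff₀ (by positivity) (by positivity)]
  have h1 : s ^ 2 / 4 ≤ (s - r) ^ 2 := by nlinarith
  have h2 : (s ^ 2 / 4) * (2 * s) ≤ (s - r) ^ 2 * (2 * s + r) := by
    apply mul_le_mul h1 (by linarith) (by positivity) (by positivity)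
  nlinarith [mul_le_mul_of_nonneg_right h2 (show 0 ≤ 2 * s by linarith),
    mul_le_mul_of_nonneg_left h (show 0 ≤ 2 * s ^ 3 by positivity)]

lemma vol_cball (x : E3) {r : ℝ} (hr : 0 ≤ r) :
    (volume (closedBall x r)).toReal = 4/3 * Real.pi * r ^ 3 := by
  rw [EuclideanSpace.volume_closedBall_fin_three, ← ENNReal.ofReal_pow hr,
    ← ENNReal.ofReal_mul (by positivity), ENNReal.toReal_ofReal (by have := Real.pi_pos; positivity)]
  ring

section
variable {f : E3 → ℝ} {c : ℝ}

lemma mean_w (nf : Nice f) (x : E3) {s : ℝ} (hs : 0 < s) :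
    ∫ y, gb s x y * (c - pot f y) = c - pot f x + ∫ y, f y * Yf s ‖y - x‖ := by
  have h := mean_eq nf x hs
  have i1 : Integrable fun y => gb s x y * pot f y := pd_int _ _ (gb_nice s x) nf
  have e : ∀ y, gb s x y * (c - pot f y) = gb s x y * c - gb s x y * pot f y := by intro y; ring
  simp_rw [e]
  rw [integral_sub ((gb_int s x).mul_const c) i1, integral_mul_const, gb_total hs, h]
  ring

lemma int_w (nf : Nice f) (x : E3) (s : ℝ) : Integrable fun y => gb s x y * (c - pot f y) := by
  have i1 : Integrable fun y => gb s x y * pot f y := pd_int _ _ (gb_nice s x) nf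
  refine (((gb_int s x).mul_const c).sub i1).congr (Eventually.of_forall fun y => ?_)
  show gb s x y * c - gb s x y * pot f y = _
  ring

lemma Yf_int_le (nf : Nice f) (h0 : ∀ x, 0 ≤ f x) (h1 : ∀ x, f x ≤ 1) (x : E3) {s : ℝ} (hs : 0 < s) :
    ∫ y, f y * Yf s ‖y - x‖ ≤ 2 * Real.pi * s ^ 2 := by
  have hb := ball_int x x s hs
  have hi := (newton_ball x x s hs).1
  have e : (4/3*Real.pi*s^3 * Gf s ‖x - x‖) = 2 * Real.pi * s ^ 2 := by
    rw [sub_self, norm_zero, Gf, if_pos hs]
    field_simp
    ring
  rw [← e, ← hb, ← integral_indicator measurableSet_ball]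
  refine integral_mono_ae (int_Yf nf x hs) ((integrable_indicator_iff measurableSet_ball).2 hi) ?_
  filter_upwards [ae_ne_pt x] with y hy
  have hr : 0 < ‖y - x‖ := norm_pos_iff.2 (sub_ne_zero.2 hy)
  by_cases hyb : y ∈ ball x s
  · rw [indicator_of_mem hyb]
    have h2 := Yf_le hs hr.le
    have h3 := Yf_nonneg hs hr
    calc f y * Yf s ‖y - x‖ ≤ 1 * Yf s ‖y - x‖ := mul_le_mul_of_nonneg_right (h1 y) h3
      _ ≤ _ := by rw [one_mul]; exact h2
  · rw [indicator_of_notMem hyb]
    rw [mem_ball, dist_eq_norm, not_lt] at hyb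
    show f y * Yf s ‖y - x‖ ≤ 0
    rw [Yf_zero hyb, mul_zero]

/-- quadratic growth off the contact set -/
lemma growth (nf : Nice f) (h0 : ∀ x, 0 ≤ f x) (h1 : ∀ x, f x ≤ 1) (hle : ∀ x, pot f x ≤ c)
    {x0 : E3} (hx0 : pot f x0 = c) {r : ℝ} (hr : 0 < r) {x : E3} (hx : x ∈ ball x0 r) :
    c - pot f x ≤ 64 * Real.pi * r ^ 2 := by
  have hpi := Real.pi_pos
  have a1 := mean_w (c := c) nf x hr
  have a2 : 0 ≤ ∫ y, f y * Yf r ‖y - x‖ := by
    refine integral_nonneg_of_ae ?_
    filter_upwards [ae_ne_pt x] with y hy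
    exact mul_nonneg (h0 y) (Yf_nonneg hr (norm_pos_iff.2 (sub_ne_zero.2 hy)))
  have a3 := mean_w (c := c) nf x0 (show 0 < 2 * r by linarith)
  have a4 := Yf_int_le nf h0 h1 x0 (show 0 < 2 * r by linarith)
  have a5 : ∫ y, gb r x y * (c - pot f y) ≤ ∫ y, 8 * (gb (2 * r) x0 y * (c - pot f y)) := by
    refine integral_mono (int_w nf x r) ((int_w nf x0 (2 * r)).const_mul 8) fun y => ?_
    show gb r x y * (c - pot f y) ≤ 8 * (gb (2 * r) x0 y * (c - pot f y))
    have hw : 0 ≤ c - pot f y := by linarith [hle y]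
    rw [← mul_assoc]
    refine mul_le_mul_of_nonneg_right ?_ hw
    unfold gb
    by_cases hy : y ∈ ball x r
    · have hy2 : y ∈ ball x0 (2 * r) := by
        rw [mem_ball] at hy hx ⊢
        linarith [dist_triangle y x x0]
      rw [indicator_of_mem hy, indicator_of_mem hy2]
      apply le_of_eq
      field_simp
      ring
    · rw [indicator_of_notMem hy]
      have : 0 ≤ (ball x0 (2 * r)).indicator (fun _ : E3 => (4/3*Real.pi*(2*r)^3)⁻¹) y :=
        indicator_nonneg (fun _ _ => by positivity) y
      linarith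
  rw [integral_const_mul, a3, hx0] at a5
  nlinarith

/-- the density vanishes on the contact set -/
theorem contact (nf : Nice f) (h0 : ∀ x, 0 ≤ f x) (h1 : ∀ x, f x ≤ 1) (hle : ∀ x, pot f x ≤ c) :
    ∀ᵐ x, pot f x = c → f x = 0 := by
  have hpi := Real.pi_pos
  have hcont := pot_cont nf
  have key : ∀ n : ℕ, ∀ᵐ x, ¬ (pot f x = c ∧ 1 / ((n:ℝ) + 1) < f x) := by
    intro n
    set δ : ℝ := 1 / ((n:ℝ) + 1) with hδ
    have hδ0 : 0 < δ := by positivity
    set A : Set E3 := {x | pot f x = c ∧ δ < f x} with hA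
    have hAm : MeasurableSet A :=
      (measurableSet_eq_fun hcont.measurable measurable_const).inter
        (measurableSet_lt measurable_const nf.1)
    have hdens := Besicovitch.ae_tendsto_measure_inter_div (volume : Measure E3) A
    rw [ae_restrict_iff' hAm] at hdens
    filter_upwards [hdens] with x0 hx0 hx0A
    have ht := hx0 hx0A
    -- real valued densities
    have ht' : Tendsto (fun r => (volume (A ∩ closedBall x0 r)).toReal / (volume (closedBall x0 r)).toReal)
        (𝓝[>] 0) (𝓝 1) := by
      have := (ENNReal.tendsto_toReal (ENNReal.one_ne_top)).comp ht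
      simp only [ENNReal.toReal_one] at this
      refine this.congr fun r => ?_
      show (volume (A ∩ closedBall x0 r) / volume (closedBall x0 r)).toReal = _
      rw [ENNReal.toReal_div]
    set η : ℝ := min (1/2) (δ / 1600) with hη
    have hη0 : 0 < η := lt_min (by norm_num) (by positivity)
    have hev : ∀ᶠ r in 𝓝[>] (0:ℝ), 1 - η <
        (volume (A ∩ closedBall x0 r)).toReal / (volume (closedBall x0 r)).toReal :=
      ht'.eventually (lt_mem_nhds (by linarith))
    obtain ⟨ρ, hρ, hρ2⟩ := mem_nhdsGT_iff_exists_Ioo_subset.1 hev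
    have hρ' : (0:ℝ) < ρ := hρ
    set r : ℝ := ρ / 2 with hr
    have hr0 : 0 < r := by positivity
    have d1 := hρ2 (show r ∈ Ioo (0:ℝ) ρ from ⟨hr0, by linarith⟩)
    have d2 := hρ2 (show r / 2 ∈ Ioo (0:ℝ) ρ from ⟨by linarith, by linarith⟩)
    simp only [mem_ofPred_eq] at d1 d2
    rw [vol_cball x0 hr0.le, lt_div_iff₀ (by positivity)] at d1
    rw [vol_cball x0 (by linarith), lt_div_iff₀ (by positivity)] at d2
    -- mean value formula at x0
    have m1 := mean_w (c := c) nf x0 hr0
    rw [hx0A.1, sub_self, zero_add] at m1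
    -- lower bound
    have hfinA : volume (A ∩ closedBall x0 (r/2)) ≠ ∞ :=
      (lt_of_le_of_lt (measure_mono inter_subset_right) measure_closedBall_lt_top).ne
    have low : δ / (2 * r) * (volume (A ∩ closedBall x0 (r/2))).toReal ≤ ∫ y, f y * Yf r ‖y - x0‖ := by
      have hms : MeasurableSet (A ∩ closedBall x0 (r/2)) := hAm.inter measurableSet_closedBall
      have e : ∫ y, (A ∩ closedBall x0 (r/2)).indicator (fun _ => δ / (2 * r)) y =
          δ / (2 * r) * (volume (A ∩ closedBall x0 (r/2))).toReal := by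
        rw [integral_indicator hms, setIntegral_const, Measure.real, smul_eq_mul, mul_comm]
      rw [← e]
      refine integral_mono_ae ((integrable_indicator_iff hms).2 (integrableOn_const hfinA))
        (int_Yf nf x0 hr0) ?_
      filter_upwards [ae_ne_pt x0] with y hy
      have hr1 : 0 < ‖y - x0‖ := norm_pos_iff.2 (sub_ne_zero.2 hy)
      by_cases hyA : y ∈ A ∩ closedBall x0 (r/2)
      · rw [indicator_of_mem hyA]
        have h2 : ‖y - x0‖ ≤ r / 2 := by
          have := hyA.2
          rwa [mem_closedBall, dist_eq_norm] at this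
        have h3 := Yf_lower hr0 hr1 h2
        have h4 : δ < f y := hyA.1.2
        calc δ / (2 * r) = δ * (1 / (2 * r)) := by ring
          _ ≤ f y * Yf r ‖y - x0‖ := mul_le_mul h4.le h3 (by positivity) (h0 y)
      · rw [indicator_of_notMem hyA]
        exact mul_nonneg (h0 y) (Yf_nonneg hr0 hr1)
    -- upper bound
    have hms2 : MeasurableSet (closedBall x0 r \ A) := measurableSet_closedBall.diff hAm
    have hfin2 : volume (closedBall x0 r \ A) ≠ ∞ :=
      (lt_of_le_of_lt (measure_mono sdiff_subset) measure_closedBall_lt_top).ne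
    have up : ∫ y, gb r x0 y * (c - pot f y) ≤
        (4/3*Real.pi*r^3)⁻¹ * (64 * Real.pi * r ^ 2) * (volume (closedBall x0 r \ A)).toReal := by
      have e : ∫ y, (closedBall x0 r \ A).indicator (fun _ => (4/3*Real.pi*r^3)⁻¹ * (64 * Real.pi * r ^ 2)) y =
          (4/3*Real.pi*r^3)⁻¹ * (64 * Real.pi * r ^ 2) * (volume (closedBall x0 r \ A)).toReal := by
        rw [integral_indicator hms2, setIntegral_const, Measure.real, smul_eq_mul, mul_comm]
      rw [← e]
      refine integral_mono (int_w nf x0 r) ((integrable_indicator_iff hms2).2 (integrableOn_const hfin2)) ?_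
      intro y
      show gb r x0 y * (c - pot f y) ≤ _
      by_cases hyb : y ∈ ball x0 r
      · by_cases hyA : y ∈ A
        · have h5 : pot f y = c := hyA.1
          rw [h5, sub_self, mul_zero]
          exact indicator_nonneg (fun _ _ => by positivity) y
        · rw [indicator_of_mem (show y ∈ closedBall x0 r \ A from ⟨ball_subset_closedBall hyb, hyA⟩)]
          unfold gb
          rw [indicator_of_mem hyb]
          refine mul_le_mul_of_nonneg_left ?_ (by positivity)
          exact growth nf h0 h1 hle hx0A.1 hr0 hyb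
      · unfold gb
        rw [indicator_of_notMem hyb, zero_mul]
        exact indicator_nonneg (fun _ _ => by positivity) y
    have hdiff : (volume (closedBall x0 r \ A)).toReal =
        4/3*Real.pi*r^3 - (volume (A ∩ closedBall x0 r)).toReal := by
      have h5 := measure_inter_add_sdiff (μ := (volume : Measure E3)) (closedBall x0 r) hAm
      have h6 : (volume (closedBall x0 r ∩ A)).toReal + (volume (closedBall x0 r \ A)).toReal =
          (volume (closedBall x0 r)).toReal := by
        rw [← ENNReal.toReal_add ?_ hfin2, h5]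
        exact (lt_of_le_of_lt (measure_mono inter_subset_left) measure_closedBall_lt_top).ne
      rw [vol_cball x0 hr0.le, inter_comm] at h6
      linarith
    rw [m1, hdiff] at up
    have h7 := low.trans up
    have h8 : 4/3*Real.pi*r^3 - (volume (A ∩ closedBall x0 r)).toReal ≤ η * (4/3*Real.pi*r^3) := by
      linarith
    have h9 : (4/3*Real.pi*r^3)⁻¹ * (64 * Real.pi * r ^ 2) *
        (4/3*Real.pi*r^3 - (volume (A ∩ closedBall x0 r)).toReal) ≤
        64 * Real.pi * r ^ 2 * η := by
      calc (4/3*Real.pi*r^3)⁻¹ * (64 * Real.pi * r ^ 2) *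
          (4/3*Real.pi*r^3 - (volume (A ∩ closedBall x0 r)).toReal) ≤
          (4/3*Real.pi*r^3)⁻¹ * (64 * Real.pi * r ^ 2) * (η * (4/3*Real.pi*r^3)) :=
            mul_le_mul_of_nonneg_left h8 (by positivity)
        _ = 64 * Real.pi * r ^ 2 * η := by field_simp
    have h10 : δ * Real.pi * r ^ 2 / 24 ≤ δ / (2 * r) * (volume (A ∩ closedBall x0 (r/2))).toReal := by
      have h11 : 1/2 * (4/3*Real.pi*(r/2)^3) ≤ (volume (A ∩ closedBall x0 (r/2))).toReal := by
        refine le_trans ?_ d2.le
        refine mul_le_mul_of_nonneg_right ?_ (by positivity)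
        have := min_le_left (1/2 : ℝ) (δ / 1600)
        linarith
      calc δ * Real.pi * r ^ 2 / 24 = δ / (2 * r) * (1/2 * (4/3*Real.pi*(r/2)^3)) := by
            field_simp; ring
        _ ≤ _ := mul_le_mul_of_nonneg_left h11 (by positivity)
    have h12 : η ≤ δ / 1600 := min_le_right _ _
    have h13 : 64 * Real.pi * r ^ 2 * η ≤ 64 * Real.pi * r ^ 2 * (δ / 1600) :=
      mul_le_mul_of_nonneg_left h12 (by positivity)
    have h14 : 0 < δ * Real.pi * r ^ 2 := by positivity
    linarith
  rw [← ae_all_iff] at key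
  filter_upwards [key] with x hx hxc
  by_contra hne
  have hpos : 0 < f x := lt_of_le_of_ne (h0 x) (Ne.symm hne)
  obtain ⟨n, hn⟩ := exists_nat_one_div_lt hpos
  exact hx n ⟨hxc, hn⟩

end

end Pool.Agent.N261.NK
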