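import Mathlib

/-!
# Minimizers of convex continuous functions on bounded closed convex subsets of a Hilbert space
-/

set_option autoImplicit false

namespace Pool.Agent.N261.NK

open Set Filter Topology

variable {H : Type*} [NormedAddCommGroup H] [InnerProductSpace ℝ H]

/-- the minimal norm element of a closed convex nonempty set -/
lemma min_norm [CompleteSpace H] {C : Set H} (hne : C.Nonempty) (hcl : IsClosed C) (hC : Convex ℝ C) :
    ∃ v ∈ C, ∀ w ∈ C, ‖v‖ ≤ ‖w‖ := by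
  obtain ⟨v, hv, he⟩ := exists_norm_eq_iInf_of_complete_convex hne hcl.isComplete hC 0
  refine ⟨v, hv, fun w hw => ?_⟩
  have h1 : ‖(0:H) - v‖ ≤ ‖(0:H) - w‖ := by
    rw [he]
    exact ciInf_le (f := fun w : C => ‖(0:H) - w‖) ⟨0, by rintro _ ⟨z, rfl⟩; exact norm_nonneg _⟩ ⟨w, hw⟩
  simpa using h1

/-- nested closed convex sets in a ball have a common point -/
theorem nested [CompleteSpace H] {C : ℕ → Set H} (hne : ∀ n, (C n).Nonempty) (hcl : ∀ n, IsClosed (C n))
    (hC : ∀ n, Convex ℝ (C n)) (hanti : ∀ m n, m ≤ n → C n ⊆ C m) {R : ℝ}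
    (hR : ∀ x ∈ C 0, ‖x‖ ≤ R) : ∃ x, ∀ n, x ∈ C n := by
  choose p hp hmin using fun n => min_norm (hne n) (hcl n) (hC n)
  have hmono : Monotone fun n => ‖p n‖ := fun m n hmn => hmin m _ (hanti m n hmn (hp n))
  have hbdd : BddAbove (range fun n => ‖p n‖) := by
    refine ⟨R, ?_⟩
    rintro _ ⟨n, rfl⟩
    exact hR _ (hanti 0 n (Nat.zero_le n) (hp n))
  have hconv := tendsto_atTop_ciSup hmono hbdd
  have hsq := hconv.pow 2
  have hcauchy : CauchySeq p := by
    rw [Metric.cauchySeq_iff']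
    intro ε hε
    have hc := hsq.cauchySeq
    rw [Metric.cauchySeq_iff'] at hc
    obtain ⟨N, hN⟩ := hc (ε ^ 2 / 2) (by positivity)
    refine ⟨N, fun n hn => ?_⟩
    have h1 := hN n hn
    rw [Real.dist_eq] at h1
    have h2 : ‖p N‖ ≤ ‖(1/2 : ℝ) • (p n + p N)‖ := by
      apply hmin N
      have := hC N (hanti N n hn (hp n)) (hp N) (by norm_num : (0:ℝ) ≤ 1/2) (by norm_num : (0:ℝ) ≤ 1/2)
        (by norm_num)
      rw [smul_add]
      exact this
    rw [norm_smul] at h2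
    norm_num at h2
    have h3 := parallelogram_law_with_norm ℝ (p n) (p N)
    have h4 : 0 ≤ ‖p N‖ := norm_nonneg _
    have h5 := le_abs_self (‖p n‖ ^ 2 - ‖p N‖ ^ 2)
    rw [dist_eq_norm]
    have h6 : ‖p n - p N‖ ^ 2 < ε ^ 2 := by nlinarith
    exact lt_of_pow_lt_pow_left₀ 2 hε.le h6
  obtain ⟨x, hx⟩ := cauchySeq_tendsto_of_complete hcauchy
  refine ⟨x, fun n => ?_⟩
  refine (hcl n).mem_of_tendsto hx ?_
  filter_upwards [eventually_ge_atTop n] with m hm
  exact hanti n m hm (hp m)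

/-- existence of minimizers -/
theorem exists_min [CompleteSpace H] {C : Set H} (hne : C.Nonempty) (hcl : IsClosed C)
    (hC : Convex ℝ C) {R : ℝ} (hR : ∀ x ∈ C, ‖x‖ ≤ R) {J : H → ℝ} (hJ : ConvexOn ℝ C J)
    (hc : ContinuousOn J C) {m : ℝ} (hm : ∀ x ∈ C, m ≤ J x) : ∃ x ∈ C, ∀ y ∈ C, J x ≤ J y := by
  have hbdd : BddBelow (J '' C) := ⟨m, by rintro _ ⟨x, hx, rfl⟩; exact hm x hx⟩
  have hne' : (J '' C).Nonempty := hne.image J
  set I := sInf (J '' C) with hI
  set D : ℕ → Set H := fun n => {x ∈ C | J x ≤ I + 1 / ((n:ℝ) + 1)} with hD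
  obtain ⟨x, hx⟩ := nested (C := D) (R := R) (by
      intro n
      obtain ⟨_, ⟨x, hx, rfl⟩, h⟩ := exists_lt_of_csInf_lt hne' (show sInf (J '' C) < I + 1 / ((n:ℝ) + 1) by
        have : 0 < 1 / ((n:ℝ) + 1) := by positivity
        linarith)
      exact ⟨x, hx, h.le⟩) (by
      intro n
      have : D n = C ∩ J ⁻¹' Iic (I + 1 / ((n:ℝ) + 1)) := by
        ext x; simp [hD]
      rw [this]
      exact hc.preimage_isClosed_of_isClosed hcl isClosed_Iic) (by
      intro n
      exact hJ.convex_le _) (by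
      intro m n hmn x hx
      refine ⟨hx.1, hx.2.trans ?_⟩
      have : 1 / ((n:ℝ) + 1) ≤ 1 / ((m:ℝ) + 1) := by
        apply one_div_le_one_div_of_le (by positivity)
        have : (m:ℝ) ≤ n := by exact_mod_cast hmn
        linarith
      linarith) (fun x hx => hR x hx.1)
  refine ⟨x, (hx 0).1, fun y hy => ?_⟩
  have h1 : I ≤ J y := csInf_le hbdd ⟨y, hy, rfl⟩
  have h2 : J x ≤ I := by
    refine le_of_forall_pos_le_add fun ε hε => ?_
    obtain ⟨n, hn⟩ := exists_nat_one_div_lt hε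
    exact ((hx n).2).trans (by linarith)
  linarith

end Pool.Agent.N261.NK
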