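import Pool.Agent.N261.NK.Mean
import Pool.Agent.N261.NK.Hilb

/-!
# The minimizing density
-/

set_option autoImplicit false

namespace Pool.Agent.N261.NK

open MeasureTheory Set Filter Topology Metric
open Pool.Agent.TH791.Cl Pool.Agent.TH791.Nw Pool.Agent.R999.MinP Pool.Agent.R999.Pot
open scoped ENNReal

/-- energy -/
noncomputable def En (c : ℝ) (f : E3 → ℝ) : ℝ := 1/2 * (∫ x, f x * pot f x) - c * ∫ x, f x

/-- admissible densities -/
structure Adm (U : Set E3) (f : E3 → ℝ) : Prop where
  meas : Measurable f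
  nn : ∀ x, 0 ≤ f x
  le1 : ∀ x, f x ≤ 1
  supp : ∀ x, x ∉ U → f x = 0

lemma Adm.nice {U : Set E3} (hb : Bornology.IsBounded U) {f : E3 → ℝ} (h : Adm U f) : Nice f := by
  obtain ⟨R, hR⟩ := hb.subset_closedBall (0:E3)
  refine nice_of_bdd h.meas (M := 1) (R := R) (fun x => ?_) (fun x hx => h.supp x fun hU => hx (hR hU))
  rw [abs_of_nonneg (h.nn x)]
  exact h.le1 x

lemma grad_ineq {f g : E3 → ℝ} (hf : Nice f) (hg : Nice g) (c : ℝ) :
    En c g + ∫ x, (f x - g x) * (pot g x - c) ≤ En c f := by
  have h := pd_main f g hf hg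
  have e7 : (∫ x, ∫ y, f x * f y / ‖x - y‖) = ∫ x, f x * pot f x := by
    apply integral_congr_ae
    exact ae_of_all _ (fun x => pd_inner f f x)
  rw [e7] at h
  have i1 := pd_int f g hf hg
  have i2 := pd_int g g hg hg
  have e : ∫ x, (f x - g x) * (pot g x - c) =
      (∫ x, f x * pot g x) - (∫ x, g x * pot g x) - c * (∫ x, f x) + c * (∫ x, g x) := by
    have e1 : ∀ x, (f x - g x) * (pot g x - c) = f x * pot g x - g x * pot g x - c * f x + c * g x := by
      intro x; ring
    simp_rw [e1]
    have j1 : Integrable fun x => f x * pot g x - g x * pot g x := i1.sub i2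
    have j2 : Integrable fun x => f x * pot g x - g x * pot g x - c * f x :=
      j1.sub (hf.2.1.const_mul c)
    rw [integral_add j2 (hg.2.1.const_mul c),
      integral_sub j1 (hf.2.1.const_mul c), integral_sub i1 i2, integral_const_mul,
      integral_const_mul]
  rw [e]
  unfold En
  linarith

lemma En_congr {f g : E3 → ℝ} (h : f =ᵐ[volume] g) (c : ℝ) : En c f = En c g := by
  unfold En
  have h1 : ∀ x, pot f x = pot g x := pot_congr h
  have h2 : ∫ x, f x = ∫ x, g x := integral_congr_ae h
  have h3 : ∫ x, f x * pot f x = ∫ x, g x * pot g x := by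
    refine integral_congr_ae ?_
    filter_upwards [h] with x hx
    rw [hx, h1 x]
  rw [h2, h3]

lemma int_mul_pot {f g : E3 → ℝ} (hf : Nice f) (hg : Nice g) (c : ℝ) :
    Integrable fun x => f x * (pot g x - c) := by
  have := (pd_int f g hf hg).sub (hf.2.1.const_mul c)
  refine this.congr (Eventually.of_forall fun x => ?_)
  show f x * pot g x - c * f x = _
  ring

section
variable (U : Set E3)

/-- the clamped representative -/
noncomputable def cl (F : E3 → ℝ) : E3 → ℝ := U.indicator fun x => max 0 (min 1 (F x))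

lemma cl_adm (hU : MeasurableSet U) {F : E3 → ℝ} (hF : Measurable F) : Adm U (cl U F) := by
  refine ⟨?_, ?_, ?_, ?_⟩
  · unfold cl
    exact (measurable_const.max (measurable_const.min hF)).indicator hU
  · intro x
    unfold cl
    exact indicator_nonneg (fun _ _ => le_max_left _ _) x
  · intro x
    unfold cl
    by_cases hx : x ∈ U
    · rw [indicator_of_mem hx]
      exact max_le zero_le_one (min_le_left _ _)
    · rw [indicator_of_notMem hx]
      exact zero_le_one
  · intro x hx
    unfold cl
    rw [indicator_of_notMem hx]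

lemma cl_eq {F : E3 → ℝ} {x : E3} (hx : x ∈ U) (h0 : 0 ≤ F x) (h1 : F x ≤ 1) : cl U F x = F x := by
  unfold cl
  rw [indicator_of_mem hx, min_eq_right h1, max_eq_right h0]

lemma cl_lip (F G : E3 → ℝ) (x : E3) : |cl U F x - cl U G x| ≤ U.indicator (fun x => |F x - G x|) x := by
  unfold cl
  by_cases hx : x ∈ U
  · simp only [indicator_of_mem hx]
    calc |max 0 (min 1 (F x)) - max 0 (min 1 (G x))| ≤ |min 1 (F x) - min 1 (G x)| := by
          have := abs_max_sub_max_le_max 0 (min 1 (F x)) 0 (min 1 (G x))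
          simpa using this
      _ ≤ |F x - G x| := by
          have := abs_min_sub_min_le_max 1 (F x) 1 (G x)
          simpa using this
  · simp only [indicator_of_notMem hx]
    simp

/-- **existence of the minimizer** -/
theorem exists_minimizer (hU : MeasurableSet U) (hb : Bornology.IsBounded U) (c : ℝ) :
    ∃ f, Adm U f ∧ ∀ g, Adm U g → En c f ≤ En c g := by
  set μ : Measure E3 := volume.restrict U with hμ
  have hUfin : volume U < ∞ := hb.measure_lt_top
  have : IsFiniteMeasure μ := ⟨by rw [hμ, Measure.restrict_apply_univ]; exact hUfin⟩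
  have hrst : ∀ {p : E3 → Prop}, (∀ᵐ x ∂μ, p x) → ∀ᵐ x, x ∈ U → p x :=
    fun h => (ae_restrict_iff' hU).1 h
  set C : Set (Lp ℝ 2 μ) := Icc 0 (Lp.const 2 μ (1:ℝ)) with hC
  have hmem : ∀ F : Lp ℝ 2 μ, F ∈ C ↔ ∀ᵐ x ∂μ, 0 ≤ F x ∧ F x ≤ 1 := by
    intro F
    rw [hC, mem_Icc, ← Lp.coeFn_le, ← Lp.coeFn_le]
    have h0 := Lp.coeFn_zero ℝ 2 μ
    have h1 := Lp.coeFn_const (p := 2) (μ := μ) (1:ℝ)
    constructor
    · rintro ⟨h2, h3⟩
      filter_upwards [h0, h1, h2, h3] with x a0 a1 a2 a3
      rw [a0] at a2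
      rw [a1] at a3
      exact ⟨a2, a3⟩
    · intro h
      constructor
      · filter_upwards [h0, h] with x a0 a1
        rw [a0]
        exact a1.1
      · filter_upwards [h1, h] with x a0 a1
        rw [a0]
        exact a1.2
  have hcl : IsClosed C := isClosed_Icc
  have hne : C.Nonempty := by
    refine ⟨0, (hmem 0).2 ?_⟩
    filter_upwards [Lp.coeFn_zero ℝ 2 μ] with x hx
    rw [hx]
    simp
  have hconv : Convex ℝ C := by
    intro F hF G hG a b ha hb hab
    rw [hmem] at hF hG ⊢
    filter_upwards [hF, hG, Lp.coeFn_add (a • F) (b • G), Lp.coeFn_smul a F, Lp.coeFn_smul b G]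
      with x h1 h2 h3 h4 h5
    rw [h3, Pi.add_apply, h4, h5, Pi.smul_apply, Pi.smul_apply, smul_eq_mul, smul_eq_mul]
    constructor
    · have := mul_nonneg ha h1.1
      have := mul_nonneg hb h2.1
      linarith
    · nlinarith [mul_le_mul_of_nonneg_left h1.2 ha, mul_le_mul_of_nonneg_left h2.2 hb]
  have hR : ∀ F ∈ C, ‖F‖ ≤ ‖Lp.const 2 μ (1:ℝ)‖ := by
    intro F hF
    refine Lp.norm_le_norm_of_ae_le ?_
    filter_upwards [(hmem F).1 hF, Lp.coeFn_const (p := 2) (μ := μ) (1:ℝ)] with x h1 h2
    rw [h2, Real.norm_eq_abs, abs_of_nonneg h1.1]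
    simpa using h1.2
  have hFm : ∀ F : Lp ℝ 2 μ, Measurable (F : E3 → ℝ) := fun F => (Lp.stronglyMeasurable F).measurable
  have hadm : ∀ F : Lp ℝ 2 μ, Adm U (cl U F) := fun F => cl_adm U hU (hFm F)
  have hnice : ∀ F : Lp ℝ 2 μ, Nice (cl U F) := fun F => (hadm F).nice hb
  -- representative
  have hrep : ∀ F ∈ C, ∀ᵐ x, x ∈ U → cl U F x = F x := by
    intro F hF
    have := (hmem F).1 hF
    filter_upwards [hrst this] with x hx hxU
    exact cl_eq U hxU (hx hxU).1 (hx hxU).2
  set J : Lp ℝ 2 μ → ℝ := fun F => En c (cl U F) with hJ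
  have hJconv : ConvexOn ℝ C J := by
    refine ⟨hconv, ?_⟩
    intro F hF G hG a b ha hb' hab
    have hM : a • F + b • G ∈ C := hconv hF hG ha hb' hab
    set M := a • F + b • G with hMdef
    have e : (fun x => a * cl U F x + b * cl U G x) =ᵐ[volume] cl U M := by
      have h3 := Lp.coeFn_add (a • F) (b • G)
      have h4 := Lp.coeFn_smul a F
      have h5 := Lp.coeFn_smul b G
      filter_upwards [hrep F hF, hrep G hG, hrep M hM, hrst h3, hrst h4, hrst h5] with x a1 a2 a3 a4 a5 a6
      by_cases hx : x ∈ U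
      · rw [a1 hx, a2 hx, a3 hx, hMdef, a4 hx, Pi.add_apply, a5 hx, a6 hx]
        simp
      · rw [(hadm F).supp x hx, (hadm G).supp x hx, (hadm M).supp x hx]
        ring
    have g1 := grad_ineq (hnice F) (hnice M) c
    have g2 := grad_ineq (hnice G) (hnice M) c
    have i1 : Integrable fun x => (cl U F x - cl U M x) * (pot (cl U M) x - c) :=
      int_mul_pot (pd_nice _ _ (hnice F) (hnice M)) (hnice M) c
    have i2 : Integrable fun x => (cl U G x - cl U M x) * (pot (cl U M) x - c) :=
      int_mul_pot (pd_nice _ _ (hnice G) (hnice M)) (hnice M) c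
    have g3 : a * (∫ x, (cl U F x - cl U M x) * (pot (cl U M) x - c)) +
        b * (∫ x, (cl U G x - cl U M x) * (pot (cl U M) x - c)) = 0 := by
      rw [← integral_const_mul, ← integral_const_mul, ← integral_add (i1.const_mul a) (i2.const_mul b)]
      rw [integral_eq_zero_of_ae]
      filter_upwards [e] with x hx
      show a * ((cl U F x - cl U M x) * (pot (cl U M) x - c)) +
        b * ((cl U G x - cl U M x) * (pot (cl U M) x - c)) = 0
      linear_combination (pot (cl U M) x - c) * hx - cl U M x * (pot (cl U M) x - c) * hab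
    show En c (cl U M) ≤ a • En c (cl U F) + b • En c (cl U G)
    rw [smul_eq_mul, smul_eq_mul]
    have h1 := mul_le_mul_of_nonneg_left g1 ha
    have h2 := mul_le_mul_of_nonneg_left g2 hb'
    have h3 : a * En c (cl U M) + b * En c (cl U M) = En c (cl U M) := by rw [← add_mul, hab, one_mul]
    rw [mul_add] at h1 h2
    linarith
  -- a bound for potentials of admissible densities
  have hone : Adm U (U.indicator fun _ => (1:ℝ)) := by
    refine ⟨measurable_const.indicator hU, fun x => indicator_nonneg (fun _ _ => zero_le_one) x, ?_,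
      fun x hx => indicator_of_notMem hx _⟩
    intro x
    by_cases hx : x ∈ U
    · rw [indicator_of_mem hx]
    · rw [indicator_of_notMem hx]; exact zero_le_one
  obtain ⟨B, hB⟩ := nice_bound _ (hone.nice hb)
  have hpb : ∀ f, Adm U f → ∀ x, |pot f x| ≤ B := by
    intro f hf x
    have h0 : 0 ≤ pot f x := by
      unfold pot
      exact integral_nonneg fun y => div_nonneg (hf.nn y) (norm_nonneg _)
    rw [abs_of_nonneg h0]
    have h1 : pot f x ≤ pot (U.indicator fun _ => (1:ℝ)) x := by
      refine pot_mono (hf.nice hb) (hone.nice hb) (Eventually.of_forall fun y => ?_) x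
      by_cases hy : y ∈ U
      · rw [indicator_of_mem hy]; exact hf.le1 y
      · rw [indicator_of_notMem hy, hf.supp y hy]
    exact h1.trans ((le_abs_self _).trans ((pot_le_abs (hone.nice hb) x).trans (hB x).2))
  have hB0 : 0 ≤ B := (abs_nonneg _).trans (hpb _ hone 0)
  set κ : ℝ := (μ univ).toReal ^ ((1:ℝ) / 2) with hκ
  have hL1 : ∀ F G : Lp ℝ 2 μ, ∫ x, |cl U F x - cl U G x| ≤ ‖F - G‖ * κ := by
    intro F G
    have hi : Integrable (fun x => |F x - G x|) μ := by
      have h1 : Integrable F μ := (Lp.memLp F).integrable (by norm_num)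
      have h2 : Integrable G μ := (Lp.memLp G).integrable (by norm_num)
      exact (h1.sub h2).abs
    have h1 : ∫ x, |cl U F x - cl U G x| ≤ ∫ x, |F x - G x| ∂μ := by
      have e : ∫ x, |F x - G x| ∂μ = ∫ x, U.indicator (fun x => |F x - G x|) x :=
        (integral_indicator hU).symm
      rw [e]
      refine integral_mono ((hnice F).2.1.sub (hnice G).2.1).abs ((integrable_indicator_iff hU).2 hi) ?_
      exact cl_lip U F G
    refine h1.trans ?_
    have h2 : ∫ x, |F x - G x| ∂μ = (eLpNorm (F - G : Lp ℝ 2 μ) 1 μ).toReal := by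
      rw [eLpNorm_one_eq_lintegral_enorm, ← integral_norm_eq_lintegral_enorm (Lp.aestronglyMeasurable _)]
      refine integral_congr_ae ?_
      filter_upwards [Lp.coeFn_sub F G] with x hx
      rw [hx, Pi.sub_apply, Real.norm_eq_abs]
    rw [h2, Lp.norm_def, hκ, ENNReal.toReal_rpow, ← ENNReal.toReal_mul]
    refine ENNReal.toReal_mono ?_ ?_
    · refine ENNReal.mul_ne_top (Lp.eLpNorm_ne_top _) ?_
      exact ENNReal.rpow_ne_top_of_nonneg (by norm_num) (measure_ne_top _ _)
    · have := eLpNorm_le_eLpNorm_mul_rpow_measure_univ (p := 1) (q := 2) (μ := μ) (by norm_num)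
        (Lp.aestronglyMeasurable (F - G))
      refine this.trans (le_of_eq ?_)
      congr 2
      norm_num
  have hJle : ∀ F G : Lp ℝ 2 μ, J F - J G ≤ (B + |c|) * (‖F - G‖ * κ) := by
    intro F G
    have g1 := grad_ineq (hnice G) (hnice F) c
    have h1 : -∫ x, (cl U G x - cl U F x) * (pot (cl U F) x - c) ≤
        ∫ x, |cl U F x - cl U G x| * (B + |c|) := by
      rw [← integral_neg]
      refine integral_mono (int_mul_pot (pd_nice _ _ (hnice G) (hnice F)) (hnice F) c).neg
        (((hnice F).2.1.sub (hnice G).2.1).abs.mul_const _) ?_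
      intro x
      show -((cl U G x - cl U F x) * (pot (cl U F) x - c)) ≤ |cl U F x - cl U G x| * (B + |c|)
      have h2 : -((cl U G x - cl U F x) * (pot (cl U F) x - c)) =
        (cl U F x - cl U G x) * (pot (cl U F) x - c) := by ring
      rw [h2]
      refine (le_abs_self _).trans ?_
      rw [abs_mul]
      refine mul_le_mul_of_nonneg_left ?_ (abs_nonneg _)
      have h3 := hpb _ (hadm F) x
      exact (abs_sub _ _).trans (by linarith)
    rw [integral_mul_const] at h1
    have h2 := mul_le_mul_of_nonneg_right (hL1 F G) (add_nonneg hB0 (abs_nonneg c))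
    show En c (cl U F) - En c (cl U G) ≤ _
    linarith
  have hJc : Continuous J := by
    have : LipschitzWith (Real.toNNReal ((B + |c|) * κ)) J := by
      refine LipschitzWith.of_dist_le_mul fun F G => ?_
      have hκ0 : 0 ≤ κ := Real.rpow_nonneg ENNReal.toReal_nonneg _
      rw [Real.coe_toNNReal _ (mul_nonneg (add_nonneg hB0 (abs_nonneg c)) hκ0),
        Real.dist_eq, dist_eq_norm, abs_le]
      have h1 := hJle F G
      have h2 := hJle G F
      rw [norm_sub_rev] at h2
      constructor <;> nlinarith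
    exact this.continuous
  -- lower bound
  have hm : ∀ F ∈ C, (-|c| * (volume U).toReal) ≤ J F := by
    intro F _
    show _ ≤ En c (cl U F)
    unfold En
    have h1 : 0 ≤ ∫ x, cl U F x * pot (cl U F) x := by
      refine integral_nonneg fun x => mul_nonneg ((hadm F).nn x) ?_
      unfold pot
      exact integral_nonneg fun y => div_nonneg ((hadm F).nn y) (norm_nonneg _)
    have h2 : ∫ x, cl U F x ≤ (volume U).toReal := by
      have : ∫ x, U.indicator (fun _ => (1:ℝ)) x = (volume U).toReal := by
        rw [integral_indicator hU, setIntegral_const]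
        simp [Measure.real]
      rw [← this]
      refine integral_mono (hnice F).2.1 (hone.nice hb).2.1 fun y => ?_
      by_cases hy : y ∈ U
      · rw [indicator_of_mem hy]; exact (hadm F).le1 y
      · rw [indicator_of_notMem hy, (hadm F).supp y hy]
    have h3 : 0 ≤ ∫ x, cl U F x := integral_nonneg (hadm F).nn
    have h4 : c * ∫ x, cl U F x ≤ |c| * (volume U).toReal :=
      (mul_le_mul_of_nonneg_right (le_abs_self c) h3).trans (mul_le_mul_of_nonneg_left h2 (abs_nonneg c))
    linarith
  obtain ⟨F, hF, hFmin⟩ := exists_min hne hcl hconv hR hJconv hJc.continuousOn hm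
  refine ⟨cl U F, hadm F, fun g hg => ?_⟩
  have hgL : MemLp g 2 μ := by
    refine MemLp.of_bound hg.meas.aestronglyMeasurable 1 (Eventually.of_forall fun x => ?_)
    rw [Real.norm_eq_abs, abs_of_nonneg (hg.nn x)]
    exact hg.le1 x
  have hGC : hgL.toLp g ∈ C := by
    rw [hmem]
    filter_upwards [hgL.coeFn_toLp] with x hx
    rw [hx]
    exact ⟨hg.nn x, hg.le1 x⟩
  have h1 := hFmin _ hGC
  have h2 : cl U (hgL.toLp g) =ᵐ[volume] g := by
    have h3 := hgL.coeFn_toLp
    filter_upwards [hrep _ hGC, hrst h3] with x a1 a2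
    by_cases hx : x ∈ U
    · rw [a1 hx, a2 hx]
    · rw [(hadm _).supp x hx, hg.supp x hx]
  show En c (cl U F) ≤ En c g
  rw [← En_congr h2 c]
  exact h1

end

end Pool.Agent.N261.NK
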