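import Mathlib

/-!
# Strictly star-shaped compact sets
-/

set_option autoImplicit false

namespace Pool.Agent.N261.NK

open Set Filter Topology Metric

variable {E : Type*} [NormedAddCommGroup E] [NormedSpace ℝ E]

lemma star_closure {K : Set E} (hK : IsClosed K)
    (hs : ∀ y ∈ K, ∀ t : ℝ, 0 ≤ t → t < 1 → t • y ∈ interior K) : closure (interior K) = K := by
  refine subset_antisymm (closure_minimal interior_subset hK) fun y hy => ?_
  have h1 : Tendsto (fun t : ℝ => t • y) (𝓝[<] 1) (𝓝 ((1:ℝ) • y)) :=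
    (continuous_id.smul continuous_const).continuousAt.tendsto.mono_left nhdsWithin_le_nhds
  rw [one_smul] at h1
  refine mem_closure_of_tendsto h1 ?_
  have : Ioo (0:ℝ) 1 ∈ 𝓝[<] (1:ℝ) := Ioo_mem_nhdsLT one_pos
  filter_upwards [this] with t ht
  exact hs y hy t ht.1.le ht.2

lemma star_connected {K : Set E} (h0 : (0:E) ∈ interior K)
    (hs : ∀ y ∈ K, ∀ t : ℝ, 0 ≤ t → t < 1 → t • y ∈ interior K) : IsConnected (interior K) := by
  have h : StarConvex ℝ 0 (interior K) := by
    intro y hy a b ha hb hab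
    rw [smul_zero, zero_add]
    rcases (show b ≤ 1 by linarith).lt_or_eq with h1 | h1
    · exact hs y (interior_subset hy) b hb h1
    · rw [h1, one_smul]; exact hy
  exact ((h.isPathConnected h0).isConnected)

theorem star_homeo {K : Set E} (hK : IsCompact K) (h0 : (0:E) ∈ interior K)
    (hs : ∀ y ∈ K, ∀ t : ℝ, 0 ≤ t → t < 1 → t • y ∈ interior K) :
    Nonempty (frontier K ≃ₜ sphere (0:E) 1) := by
  have hne : ∀ x ∈ frontier K, x ≠ 0 := by
    rintro x hx rfl
    exact hx.2 h0
  have hfK : ∀ x ∈ frontier K, x ∈ K := fun x hx => by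
    have := hx.1
    rwa [hK.isClosed.closure_eq] at this
  let φ : frontier K → sphere (0:E) 1 := fun x => ⟨‖(x:E)‖⁻¹ • (x:E), by
    rw [mem_sphere_zero_iff_norm, norm_smul, norm_inv, norm_norm,
      inv_mul_cancel₀ (norm_ne_zero_iff.2 (hne _ x.2))]⟩
  have hφ : Continuous φ := by
    refine Continuous.subtype_mk ?_ _
    exact (continuous_subtype_val.norm.inv₀ fun x => norm_ne_zero_iff.2 (hne _ x.2)).smul
      continuous_subtype_val
  have key : ∀ x ∈ frontier K, ∀ y ∈ frontier K, ‖x‖⁻¹ • x = ‖y‖⁻¹ • y → ¬ (‖x‖ < ‖y‖) := by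
    intro x hx y hy h hlt
    have hxn : 0 < ‖x‖ := norm_pos_iff.2 (hne x hx)
    have hyn : 0 < ‖y‖ := norm_pos_iff.2 (hne y hy)
    have e : x = (‖x‖ / ‖y‖) • y := by
      calc x = ‖x‖ • (‖x‖⁻¹ • x) := by rw [smul_smul, mul_inv_cancel₀ hxn.ne', one_smul]
        _ = _ := by rw [h, smul_smul, div_eq_mul_inv]
    have := hs y (hfK y hy) (‖x‖ / ‖y‖) (by positivity) (by rw [div_lt_one hyn]; exact hlt)
    rw [← e] at this
    exact hx.2 this
  have hinj : Function.Injective φ := by
    intro x y hxy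
    have h1 : ‖(x:E)‖⁻¹ • (x:E) = ‖(y:E)‖⁻¹ • (y:E) := congrArg Subtype.val hxy
    have h2 := key x x.2 y y.2 h1
    have h3 := key y y.2 x x.2 h1.symm
    have h4 : ‖(x:E)‖ = ‖(y:E)‖ := le_antisymm (not_lt.1 h3) (not_lt.1 h2)
    apply Subtype.ext
    have hyn : ‖(y:E)‖ ≠ 0 := norm_ne_zero_iff.2 (hne _ y.2)
    rw [h4] at h1
    exact smul_right_injective E (inv_ne_zero hyn) h1
  have hsurj : Function.Surjective φ := by
    rintro ⟨ω, hω⟩
    have hω' : ‖ω‖ = 1 := mem_sphere_zero_iff_norm.1 hω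
    set S : Set ℝ := {t | 0 ≤ t ∧ t • ω ∈ K} with hS
    obtain ⟨R, hR⟩ := hK.isBounded.subset_closedBall (0:E)
    have hScl : IsClosed S :=
      (isClosed_le continuous_const continuous_id).inter
        (hK.isClosed.preimage (continuous_id.smul continuous_const))
    have hScomp : IsCompact S := by
      refine (isCompact_Icc (a := (0:ℝ)) (b := R)).of_isClosed_subset hScl ?_
      intro t ht
      refine ⟨ht.1, ?_⟩
      have := hR ht.2
      rw [mem_closedBall_zero_iff, norm_smul, hω', mul_one, Real.norm_of_nonneg ht.1] at this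
      exact this
    have hSne : S.Nonempty := ⟨0, le_rfl, by rw [zero_smul]; exact interior_subset h0⟩
    obtain ⟨t, ht, hmax⟩ := hScomp.exists_isMaxOn hSne continuous_id.continuousOn
    have hfr : t • ω ∈ frontier K := by
      refine ⟨subset_closure ht.2, fun hint => ?_⟩
      have h1 : Tendsto (fun s : ℝ => s • ω) (𝓝[>] t) (𝓝 (t • ω)) :=
        (continuous_id.smul continuous_const).continuousAt.tendsto.mono_left nhdsWithin_le_nhds
      have h2 := (h1.eventually (isOpen_interior.mem_nhds hint)).and self_mem_nhdsWithin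
      obtain ⟨s, hs1, hs2⟩ := h2.exists
      have hs2' : t < s := hs2
      have : s ≤ t := hmax (show s ∈ S from ⟨by linarith [ht.1], interior_subset hs1⟩)
      linarith
    have ht0 : 0 < t := by
      rcases ht.1.lt_or_eq with h | h
      · exact h
      · exfalso
        apply hne _ hfr
        rw [← h, zero_smul]
    refine ⟨⟨t • ω, hfr⟩, ?_⟩
    apply Subtype.ext
    show ‖t • ω‖⁻¹ • (t • ω) = ω
    rw [norm_smul, hω', mul_one, Real.norm_of_nonneg ht0.le, smul_smul, inv_mul_cancel₀ ht0.ne', one_smul]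
  have : CompactSpace (frontier K) :=
    isCompact_iff_compactSpace.1 (hK.of_isClosed_subset isClosed_frontier fun x hx => hfK x hx)
  exact ⟨Continuous.homeoOfEquivCompactToT2 (f := Equiv.ofBijective φ ⟨hinj, hsurj⟩) hφ⟩

end Pool.Agent.N261.NK
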