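import Pool.Agent.N261.NK.Cmp
import Pool.Agent.N261.NK.Star

/-!
# The lens-shaped body with a cavity of constant potential
-/

set_option autoImplicit false

namespace Pool.Agent.N261.NK

open MeasureTheory Set Filter Topology Metric
open Pool.Agent.TH791.Cl Pool.Agent.TH791.Nw Pool.Agent.R999.MinP Pool.Agent.R999.Pot
open scoped ENNReal RealInnerProductSpace

/-- centre of one of the two balls -/
noncomputable def aa : E3 := EuclideanSpace.single 0 (1/10 : ℝ)

/-- the lens -/
def LU : Set E3 := ball aa 1 ∩ ball (-aa) 1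

lemma norm_aa : ‖aa‖ = 1/10 := by
  unfold aa
  rw [PiLp.norm_single, Real.norm_of_nonneg (by norm_num)]

lemma LU_open : IsOpen LU := isOpen_ball.inter isOpen_ball

lemma LU_convex : Convex ℝ LU := (convex_ball _ _).inter (convex_ball _ _)

lemma LU_sup : ball (0:E3) (9/10) ⊆ LU := by
  intro x hx
  rw [mem_ball_zero_iff] at hx
  have ha := norm_aa
  constructor
  · rw [mem_ball, dist_eq_norm]
    have := norm_sub_le x aa
    linarith
  · rw [mem_ball, dist_eq_norm, sub_neg_eq_add]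
    have := norm_add_le x aa
    linarith

lemma LU_sub : LU ⊆ ball (0:E3) 1 := by
  rintro x ⟨h1, h2⟩
  rw [mem_ball, dist_eq_norm] at h1 h2
  rw [sub_neg_eq_add] at h2
  rw [mem_ball_zero_iff]
  have h := parallelogram_law_with_norm ℝ x aa
  have h3 : ‖x + aa‖ * ‖x + aa‖ < 1 := by nlinarith [norm_nonneg (x + aa)]
  have h4 : ‖x - aa‖ * ‖x - aa‖ < 1 := by nlinarith [norm_nonneg (x - aa)]
  have h5 : ‖x‖ * ‖x‖ < 1 := by nlinarith [mul_self_nonneg ‖aa‖]
  by_contra hc
  push Not at hc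
  nlinarith

lemma LU_bdd : Bornology.IsBounded LU := isBounded_ball.subset LU_sub

lemma zero_LU : (0:E3) ∈ LU := LU_sup (by simp)

/-- a boundary point criterion -/
lemma LU_frontier {p : E3} (h1 : ‖p - aa‖ ≤ 1) (h2 : ‖p + aa‖ ≤ 1) (h3 : ‖p - aa‖ = 1 ∨ ‖p + aa‖ = 1) :
    p ∈ frontier LU := by
  rw [LU_open.frontier_eq]
  constructor
  · have ht : Tendsto (fun t : ℝ => t • p) (𝓝[<] 1) (𝓝 ((1:ℝ) • p)) :=
      (continuous_id.smul continuous_const).continuousAt.tendsto.mono_left nhdsWithin_le_nhds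
    rw [one_smul] at ht
    refine mem_closure_of_tendsto ht ?_
    have : Ioo (0:ℝ) 1 ∈ 𝓝[<] (1:ℝ) := Ioo_mem_nhdsLT one_pos
    filter_upwards [this] with t ht
    have ha := norm_aa
    constructor
    · rw [mem_ball, dist_eq_norm]
      have e : t • p - aa = t • (p - aa) + (t - 1) • aa := by module
      have e2 := norm_add_le (t • (p - aa)) ((t - 1) • aa)
      rw [norm_smul, norm_smul, Real.norm_of_nonneg ht.1.le, Real.norm_eq_abs,
        abs_of_nonpos (by linarith [ht.2])] at e2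
      rw [e]
      nlinarith [ht.1, ht.2]
    · rw [mem_ball, dist_eq_norm, sub_neg_eq_add]
      have e : t • p + aa = t • (p + aa) + (1 - t) • aa := by module
      have e2 := norm_add_le (t • (p + aa)) ((1 - t) • aa)
      rw [norm_smul, norm_smul, Real.norm_of_nonneg ht.1.le, Real.norm_eq_abs,
        abs_of_nonneg (by linarith [ht.2])] at e2
      rw [e]
      nlinarith [ht.1, ht.2]
  · rintro ⟨h4, h5⟩
    rw [mem_ball, dist_eq_norm] at h4 h5
    rw [sub_neg_eq_add] at h5
    rcases h3 with h | h <;> linarith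

/-- points in a coordinate plane -/
noncomputable def pt (s u : ℝ) : E3 := EuclideanSpace.single 0 s + EuclideanSpace.single 1 u

lemma pt_norm (s u : ℝ) : ‖pt s u‖ ^ 2 = s ^ 2 + u ^ 2 := by
  rw [EuclideanSpace.norm_sq_eq, Fin.sum_univ_three]
  simp [pt]

lemma pt_sub (s u : ℝ) : pt s u - aa = pt (s - 1/10) u := by
  unfold pt aa
  ext i
  fin_cases i <;> simp

lemma pt_add (s u : ℝ) : pt s u + aa = pt (s + 1/10) u := by
  unfold pt aa
  ext i
  fin_cases i <;> simp

lemma pt_frontier {s u : ℝ} (h : (|s| + 1/10) ^ 2 + u ^ 2 = 1) : pt s u ∈ frontier LU := by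
  have h1 := pt_norm (s - 1/10) u
  have h2 := pt_norm (s + 1/10) u
  rw [← pt_sub] at h1
  rw [← pt_add] at h2
  rcases le_total 0 s with hs | hs
  · rw [abs_of_nonneg hs] at h
    have h3 : ‖pt s u + aa‖ ^ 2 = 1 := by rw [h2, h]
    have h4 : ‖pt s u - aa‖ ^ 2 ≤ 1 := by rw [h1]; nlinarith
    have h5 : ‖pt s u + aa‖ = 1 := (pow_eq_one_iff_of_nonneg (norm_nonneg _) two_ne_zero).1 h3
    exact LU_frontier ((sq_le_one_iff₀ (norm_nonneg _)).1 h4) h5.le (Or.inr h5)
  · rw [abs_of_nonpos hs] at h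
    have h3 : ‖pt s u - aa‖ ^ 2 = 1 := by rw [h1]; linarith
    have h4 : ‖pt s u + aa‖ ^ 2 ≤ 1 := by rw [h2]; nlinarith
    have h5 : ‖pt s u - aa‖ = 1 := (pow_eq_one_iff_of_nonneg (norm_nonneg _) two_ne_zero).1 h3
    exact LU_frontier h5.le ((sq_le_one_iff₀ (norm_nonneg _)).1 h4) (Or.inl h5)

/-- the lens is not an ellipsoid -/
theorem not_ellipsoid (f : E3 ≃ᵃ[ℝ] E3) (h : frontier LU = f '' sphere (0:E3) 1) : False := by
  have hq : ∀ p ∈ frontier LU, ‖f.symm p‖ = 1 := by
    intro p hp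
    rw [h] at hp
    obtain ⟨q, hq, rfl⟩ := hp
    rw [f.symm_apply_apply]
    exact mem_sphere_zero_iff_norm.1 hq
  set L := f.symm.linear with hL
  set v0 : E3 := L (EuclideanSpace.single 0 1) with hv0
  set v1 : E3 := L (EuclideanSpace.single 1 1) with hv1
  set g0 : E3 := f.symm 0 with hg0
  have hg : ∀ s u : ℝ, f.symm (pt s u) = g0 + (s • v0 + u • v1) := by
    intro s u
    have h1 := f.symm.map_vadd (0:E3) (pt s u)
    rw [vadd_eq_add, vadd_eq_add, add_zero] at h1
    rw [h1]
    have e : pt s u = s • (EuclideanSpace.single 0 1 : E3) + u • (EuclideanSpace.single 1 1 : E3) := by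
      unfold pt
      congr 1
      · ext i; simp
      · ext i; simp
    rw [e, map_add, map_smul, map_smul, add_comm]
  have hsum : ∀ s u : ℝ, 0 ≤ s → (s + 1/10) ^ 2 + u ^ 2 = 1 →
      ‖g0‖ ^ 2 + s ^ 2 * ‖v0‖ ^ 2 + u ^ 2 * ‖v1‖ ^ 2 = 1 := by
    intro s u hs hsu
    have a1 := hq _ (pt_frontier (s := s) (u := u) (by rw [abs_of_nonneg hs]; exact hsu))
    have a2 := hq _ (pt_frontier (s := s) (u := -u) (by rw [abs_of_nonneg hs]; linarith))
    have a3 := hq _ (pt_frontier (s := -s) (u := u) (by rw [abs_neg, abs_of_nonneg hs]; exact hsu))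
    have a4 := hq _ (pt_frontier (s := -s) (u := -u) (by rw [abs_neg, abs_of_nonneg hs]; linarith))
    rw [hg] at a1 a2 a3 a4
    have b1 : ‖g0 + (s • v0 + u • v1)‖ ^ 2 = 1 := by rw [a1]; norm_num
    have b2 : ‖g0 + (s • v0 + (-u) • v1)‖ ^ 2 = 1 := by rw [a2]; norm_num
    have b3 : ‖g0 + ((-s) • v0 + u • v1)‖ ^ 2 = 1 := by rw [a3]; norm_num
    have b4 : ‖g0 + ((-s) • v0 + (-u) • v1)‖ ^ 2 = 1 := by rw [a4]; norm_num
    rw [norm_add_sq_real, norm_add_sq_real] at b1 b2 b3 b4
    simp only [inner_add_right, real_inner_smul_right, real_inner_smul_left, norm_smul, mul_pow,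
      Real.norm_eq_abs, sq_abs] at b1 b2 b3 b4
    nlinarith
  have e1 := hsum 0 (√(99/100)) le_rfl (by rw [Real.sq_sqrt (by norm_num)]; norm_num)
  have e2 := hsum (9/10) 0 (by norm_num) (by norm_num)
  have e3 := hsum (9/20) (√(279/400)) (by norm_num) (by rw [Real.sq_sqrt (by norm_num)]; norm_num)
  rw [Real.sq_sqrt (by norm_num)] at e1 e3
  have h0 : ‖v1‖ ^ 2 = 0 := by linarith
  have h1 : v1 = 0 := by simpa using h0
  have h2 : (EuclideanSpace.single 1 1 : E3) = 0 := by
    apply L.injective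
    rw [map_zero]
    exact h1
  have h3 : ‖(EuclideanSpace.single 1 1 : E3)‖ = 1 := by
    rw [PiLp.norm_single]; norm_num
  rw [h2, norm_zero] at h3
  norm_num at h3

/-- reflections of the lens -/
lemma LU_refl {m v : E3} (hv : v ≠ 0) (h : |⟪v, aa⟫| ≤ ⟪v, m⟫) {z : E3} (hz : z ∈ LU)
    (hzv : 0 < ⟪v, z - m⟫) : rf m v z ∈ LU := by
  have hv2 : 0 < ‖v‖ ^ 2 := by positivity
  obtain ⟨h1, h2⟩ := hz
  rw [mem_ball, dist_eq_norm] at h1 h2
  have hle := abs_le.1 h
  have key : ∀ b : E3, 0 ≤ ⟪v, m - b⟫ → ‖z - b‖ < 1 → ‖rf m v z - b‖ < 1 := by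
    intro b hb hzb
    have e := rf_dist hv (m := m) z b
    have h3 : 0 ≤ 4 * ⟪v, z - m⟫ * ⟪v, m - b⟫ / ‖v‖ ^ 2 := by positivity
    have h4 : ‖rf m v z - b‖ ^ 2 < 1 := by
      have : ‖z - b‖ ^ 2 < 1 := by nlinarith [norm_nonneg (z - b)]
      linarith
    exact (sq_lt_one_iff₀ (norm_nonneg _)).1 h4
  constructor
  · rw [mem_ball, dist_eq_norm]
    refine key aa ?_ h1
    rw [inner_sub_right]
    linarith [hle.2]
  · rw [mem_ball, dist_eq_norm]
    refine key (-aa) ?_ h2
    rw [inner_sub_right, inner_neg_right]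
    linarith [hle.1]

/-- the constant -/
noncomputable def cc : ℝ := 2 * Real.pi * (1071/1600)

theorem exists_cavity : ∃ K : Set E3, IsCompact K ∧ (0:E3) ∈ interior K ∧
    (∀ y ∈ K, ∀ t : ℝ, 0 ≤ t → t < 1 → t • y ∈ interior K) ∧ K ⊆ LU ∧
    ∀ P ∈ K, ∫ M in LU \ K, (dist P M)⁻¹ = cc := by
  have hpi := Real.pi_pos
  have hcc : 0 ≤ cc := by unfold cc; positivity
  obtain ⟨f, hf, hEL, hle⟩ := exists_EL LU_open.measurableSet LU_bdd hcc
  have nf := hf.nice LU_bdd
  have hcont := pot_cont nf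
  set K : Set E3 := {x | pot f x = cc} with hK
  have hKcl : IsClosed K := isClosed_eq hcont continuous_const
  have hin : ∀ x : E3, ‖x‖ ≤ 3/8 → x ∈ K := by
    intro x hx
    have h1 := inner_cmp LU_bdd hf hEL (k := 3/8) (R := 9/10) (by norm_num) (by norm_num)
      (by unfold cc; ring) LU_sup x
    rw [pot_sh_in (by norm_num) (by norm_num) hx] at h1
    refine le_antisymm (hle x) (le_trans (le_of_eq ?_) h1)
    unfold cc; ring
  have hout : ∀ x ∈ K, ‖x‖ ≤ 23/40 := by
    intro x hx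
    by_contra hc
    push Not at hc
    have h1 := outer_cmp LU_bdd hf hle (k := 23/40) (R := 1) (by norm_num) (by norm_num)
      (by unfold cc; ring) LU_sub x
    have h2 := pot_sh_out (k := 23/40) (R := 1) (by norm_num) (by norm_num) hc
    have h3 : pot f x = cc := hx
    have h4 : cc = 2 * Real.pi * (1 ^ 2 - (23/40) ^ 2) := by unfold cc; ring
    linarith
  have hKc : IsCompact K :=
    (isCompact_closedBall (0:E3) (23/40)).of_isClosed_subset hKcl fun x hx => by
      rw [mem_closedBall_zero_iff]; exact hout x hx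
  have hball : ball (0:E3) (3/8) ⊆ interior K :=
    interior_maximal (fun x hx => hin x (mem_ball_zero_iff.1 hx).le) isOpen_ball
  -- reflection property of the contact set
  have hrefl : ∀ y ∈ K, ∀ x : E3, 2/10 * ‖y - x‖ < ‖y‖ ^ 2 - ‖x‖ ^ 2 → x ∈ K := by
    intro y hy x hxy
    have hne : y - x ≠ 0 := by
      intro h0
      have : y = x := sub_eq_zero.1 h0
      rw [this] at hxy
      simp at hxy
    set m : E3 := (1/2 : ℝ) • (x + y) with hm
    have hvm : ⟪y - x, m⟫ = 1/2 * (‖y‖ ^ 2 - ‖x‖ ^ 2) := by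
      rw [hm, real_inner_smul_right, inner_sub_left, inner_add_right, inner_add_right,
        real_inner_self_eq_norm_sq, real_inner_self_eq_norm_sq, real_inner_comm x y]
      ring
    have hva : |⟪y - x, aa⟫| ≤ ⟪y - x, m⟫ := by
      have h1 := abs_real_inner_le_norm (y - x) aa
      rw [norm_aa] at h1
      rw [hvm]
      linarith
    have hpos : 0 < ⟪y - x, y - m⟫ := by
      have e : y - m = (1/2 : ℝ) • (y - x) := by rw [hm]; module
      rw [e, real_inner_smul_right, real_inner_self_eq_norm_sq]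
      positivity
    have h2 := refl_pr LU_bdd hf hEL hle (m := m) (v := y - x)
      (fun z hz hzv => LU_refl hne hva hz hzv) hpos
    rw [rf_swap hne] at h2
    have h3 : pot f y = cc := hy
    exact le_antisymm (hle x) (by linarith)
  have hstar : ∀ y ∈ K, ∀ t : ℝ, 0 ≤ t → t < 1 → t • y ∈ interior K := by
    intro y hy t ht0 ht1
    by_cases hc : ‖t • y‖ < 3/8
    · exact hball (mem_ball_zero_iff.2 hc)
    · push Not at hc
      have hopen : IsOpen {x : E3 | 2/10 * ‖y - x‖ < ‖y‖ ^ 2 - ‖x‖ ^ 2} :=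
        isOpen_lt (by fun_prop) (by fun_prop)
      have hsub : {x : E3 | 2/10 * ‖y - x‖ < ‖y‖ ^ 2 - ‖x‖ ^ 2} ⊆ interior K :=
        interior_maximal (fun x hx => hrefl y hy x hx) hopen
      apply hsub
      show 2/10 * ‖y - t • y‖ < ‖y‖ ^ 2 - ‖t • y‖ ^ 2
      have e : y - t • y = (1 - t) • y := by module
      rw [norm_smul, Real.norm_of_nonneg ht0] at hc
      rw [e, norm_smul, norm_smul, Real.norm_of_nonneg ht0, Real.norm_of_nonneg (by linarith)]
      have hy0 : 0 < ‖y‖ := by
        by_contra h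
        push Not at h
        have : ‖y‖ = 0 := le_antisymm h (norm_nonneg _)
        rw [this] at hc
        norm_num at hc
      have h1 : 0 < (1 - t) * ‖y‖ := mul_pos (by linarith) hy0
      have h2 : (1 - t) * ‖y‖ * (2/10) < (1 - t) * ‖y‖ * (‖y‖ + t * ‖y‖) :=
        mul_lt_mul_of_pos_left (by linarith) h1
      nlinarith
  refine ⟨K, hKc, hball (by simp), hstar, ?_, ?_⟩
  · intro x hx
    apply LU_sup
    rw [mem_ball_zero_iff]
    have := hout x hx
    linarith
  · intro P hP
    have hP' : pot f P = cc := hP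
    rw [← hP']
    unfold pot
    rw [← integral_indicator (LU_open.measurableSet.diff hKcl.measurableSet)]
    refine integral_congr_ae ?_
    filter_upwards [hEL, contact nf hf.nn hf.le1 hle] with y h1 h2
    by_cases hy : y ∈ LU \ K
    · rw [indicator_of_mem hy, h1 hy.1 (lt_of_le_of_ne (hle y) hy.2), dist_eq_norm]
      rw [one_div]
    · rw [indicator_of_notMem hy]
      by_cases hyU : y ∈ LU
      · have hyK : y ∈ K := by
          by_contra h
          exact hy ⟨hyU, h⟩
        rw [h2 hyK, zero_div]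
      · rw [hf.supp y hyU, zero_div]

theorem final : ¬ (∀ (S S₁ U T₁ : Set (EuclideanSpace ℝ (Fin 3))),
    Nonempty (S ≃ₜ Metric.sphere (0 : EuclideanSpace ℝ (Fin 3)) 1) →
    Nonempty (S₁ ≃ₜ Metric.sphere (0 : EuclideanSpace ℝ (Fin 3)) 1) →
    IsOpen U → IsConnected U → Bornology.IsBounded U → frontier U = S →
    IsOpen T₁ → IsConnected T₁ → Bornology.IsBounded T₁ → frontier T₁ = S₁ →
    closure T₁ ⊆ U →
    (∃ c : ℝ, ∀ P ∈ T₁, ∫ M in U \ closure T₁, (dist P M)⁻¹ = c) →
    ∃ (f : EuclideanSpace ℝ (Fin 3) ≃ᵃ[ℝ] EuclideanSpace ℝ (Fin 3)) (k : ℝ),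
      0 < k ∧ k < 1 ∧
      S = f '' Metric.sphere (0 : EuclideanSpace ℝ (Fin 3)) 1 ∧
      S₁ = f '' Metric.sphere (0 : EuclideanSpace ℝ (Fin 3)) k) := by
  intro H
  obtain ⟨K, hKc, h0, hstar, hKU, hpot⟩ := exists_cavity
  have hcl : closure (interior K) = K := star_closure hKc.isClosed hstar
  have hfr : frontier (interior K) = frontier K := by
    rw [isOpen_interior.frontier_eq, hcl, hKc.isClosed.frontier_eq]
  -- the outer surface
  have hUint : interior (closure LU) = LU := by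
    rw [LU_convex.interior_closure_eq_interior_of_nonempty_interior
      ⟨0, by rw [LU_open.interior_eq]; exact zero_LU⟩, LU_open.interior_eq]
  have hUc : IsCompact (closure LU) :=
    (isCompact_closedBall (0:E3) 1).of_isClosed_subset isClosed_closure
      (closure_minimal (LU_sub.trans ball_subset_closedBall) isClosed_closedBall)
  have hUstar : ∀ y ∈ closure LU, ∀ t : ℝ, 0 ≤ t → t < 1 → t • y ∈ interior (closure LU) := by
    intro y hy t ht0 ht1
    rw [hUint]
    have := LU_convex.combo_interior_closure_mem_interior (x := 0) (y := y) (a := 1 - t) (b := t)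
      (by rw [LU_open.interior_eq]; exact zero_LU) hy (by linarith) ht0 (by ring)
    rw [LU_open.interior_eq, smul_zero, zero_add] at this
    exact this
  have hUfr : frontier (closure LU) = frontier LU := by
    rw [isClosed_closure.frontier_eq, hUint, LU_open.frontier_eq]
  obtain ⟨φ, k, _, _, hS, _⟩ := H (frontier LU) (frontier (interior K)) LU (interior K)
    (by rw [← hUfr]; exact star_homeo hUc (by rw [hUint]; exact zero_LU) hUstar)
    (by rw [hfr]; exact star_homeo hKc h0 hstar)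
    LU_open (LU_convex.isConnected ⟨0, zero_LU⟩) LU_bdd rfl
    isOpen_interior (star_connected h0 hstar) (hKc.isBounded.subset interior_subset) rfl
    (by rw [hcl]; exact hKU)
    ⟨cc, fun P hP => by rw [hcl]; exact hpot P (interior_subset hP)⟩
  exact not_ellipsoid φ hS

end Pool.Agent.N261.NK
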