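import Pool.Agent.R999.MinP

/-!
# Mean value formulas and maximum principles for Coulomb potentials of bounded densities
-/

set_option autoImplicit false

namespace Pool.Agent.N261.NK

open MeasureTheory Set Filter Topology Metric
open Pool.Agent.TH791.Cl Pool.Agent.TH791.Nw Pool.Agent.R999.MinP Pool.Agent.R999.Pot
open scoped ENNReal

/-- bounded measurable functions with bounded support are nice -/
lemma nice_of_bdd {g : E3 → ℝ} (hm : Measurable g) {M R : ℝ} (hb : ∀ x, |g x| ≤ M)
    (hs : ∀ x, x ∉ closedBall (0:E3) R → g x = 0) : Nice g := by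
  have key : ∀ (h : E3 → ℝ), Measurable h → (∀ x, x ∉ closedBall (0:E3) R → h x = 0) →
      (∃ M, ∀ x, |h x| ≤ M) → Integrable h := by
    intro h hh h0 ⟨M, hM⟩
    have e : h = (closedBall (0:E3) R).indicator h := by
      funext x
      by_cases hx : x ∈ closedBall (0:E3) R
      · rw [indicator_of_mem hx]
      · rw [indicator_of_notMem hx, h0 x hx]
    rw [e, integrable_indicator_iff measurableSet_closedBall]
    have : IsFiniteMeasure ((volume : Measure E3).restrict (closedBall (0:E3) R)) :=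
      ⟨by rw [Measure.restrict_apply_univ]; exact measure_closedBall_lt_top⟩
    exact Integrable.of_bound hh.aestronglyMeasurable M (Eventually.of_forall hM)
  refine ⟨hm, key g hm hs ⟨M, hb⟩, key _ (hm.abs.pow_const _) ?_ ⟨M ^ (5/3 : ℝ), ?_⟩⟩
  · intro x hx
    show |g x| ^ (5/3 : ℝ) = 0
    rw [hs x hx, abs_zero, Real.zero_rpow (by norm_num)]
  · intro x
    rw [abs_of_nonneg (Real.rpow_nonneg (abs_nonneg _) _)]
    exact Real.rpow_le_rpow (abs_nonneg _) (hb x) (by norm_num)

lemma pot_congr {f g : E3 → ℝ} (h : f =ᵐ[volume] g) (x : E3) : pot f x = pot g x := by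
  unfold pot
  refine integral_congr_ae ?_
  filter_upwards [h] with y hy
  rw [hy]

lemma pot_mono {f g : E3 → ℝ} (hf : Nice f) (hg : Nice g) (h : ∀ᵐ y, f y ≤ g y) (x : E3) :
    pot f x ≤ pot g x := by
  obtain ⟨B1, hB1⟩ := nice_bound f hf
  obtain ⟨B2, hB2⟩ := nice_bound g hg
  unfold pot
  refine integral_mono_ae (hB1 x).1 (hB2 x).1 ?_
  filter_upwards [h] with y hy
  exact div_le_div_of_nonneg_right hy (norm_nonneg _)

lemma ae_ne_pt (x0 : E3) : ∀ᵐ y : E3, y ≠ x0 := by
  have h := (Set.countable_singleton x0).ae_notMem (volume : Measure E3)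
  filter_upwards [h] with y hy
  simpa using hy

lemma int_Yf {g : E3 → ℝ} (hg : Nice g) (x0 : E3) {s : ℝ} (hs : 0 < s) :
    Integrable (fun y => g y * Yf s ‖y - x0‖) := by
  obtain ⟨B, hB⟩ := nice_bound g hg
  have h1 : Integrable (fun y => g y / ‖x0 - y‖) := (hB x0).1
  have h2 : Integrable (fun y => g y * Gf s ‖y - x0‖) := by
    refine hg.2.1.mul_bdd (c := 3 / (2 * s)) ?_ ?_
    · exact ((Gf_meas s).comp (measurable_id.sub measurable_const).norm).aestronglyMeasurable
    · refine Eventually.of_forall fun x => ?_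
      rw [Real.norm_of_nonneg (Gf_nonneg hs (norm_nonneg _))]
      exact Gf_le hs
  refine (h1.sub h2).congr (Eventually.of_forall fun y => ?_)
  show g y / ‖x0 - y‖ - g y * Gf s ‖y - x0‖ = g y * Yf s ‖y - x0‖
  unfold Yf
  rw [norm_sub_rev x0 y]
  ring

/-- **mean value formula** -/
theorem mean_eq {g : E3 → ℝ} (hg : Nice g) (x0 : E3) {s : ℝ} (hs : 0 < s) :
    ∫ x, gb s x0 x * pot g x = pot g x0 - ∫ y, g y * Yf s ‖y - x0‖ := by
  obtain ⟨B, hB⟩ := nice_bound g hg
  have h1 : Integrable (fun y => g y / ‖x0 - y‖) := (hB x0).1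
  have h3 := int_Yf hg x0 hs
  rw [pd_swap _ _ (gb_nice s x0) hg]
  simp_rw [pot_gb hs]
  have e : ∀ y, g y * Gf s ‖y - x0‖ = g y / ‖x0 - y‖ - g y * Yf s ‖y - x0‖ := by
    intro y
    unfold Yf
    rw [norm_sub_rev x0 y]
    ring
  simp_rw [e]
  rw [integral_sub h1 h3]
  rfl

/-- **maximum principle** in an open set -/
theorem max_pr {g : E3 → ℝ} (hg : Nice g) {Ω : Set E3} (hΩ : IsOpen Ω)
    (hbd : ∀ x ∈ closure Ω, x ∉ Ω → 0 ≤ pot g x)
    (h : ∀ᵐ x, x ∈ Ω → pot g x < 0 → 0 ≤ g x) : ∀ x ∈ Ω, 0 ≤ pot g x := by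
  intro x1 hx1
  by_contra hc
  push Not at hc
  have hcont := pot_cont hg
  obtain ⟨M, hM⟩ := pot_decay hg (show 0 < -pot g x1 / 2 by linarith)
  set L := max M ‖x1‖ with hL
  have hK : IsCompact (closure Ω ∩ closedBall (0:E3) L) :=
    (isCompact_closedBall (0:E3) L).inter_left isClosed_closure
  obtain ⟨x0, hx0, hmin⟩ := hK.exists_isMinOn
    ⟨x1, subset_closure hx1, by simp [hL]⟩ hcont.continuousOn
  have h1 : pot g x0 ≤ pot g x1 := hmin (show x1 ∈ closure Ω ∩ closedBall (0:E3) L from
    ⟨subset_closure hx1, by simp [hL]⟩)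
  have hglob : ∀ y ∈ closure Ω, pot g x0 ≤ pot g y := by
    intro y hyΩ
    by_cases hy : y ∈ closedBall (0:E3) L
    · exact hmin ⟨hyΩ, hy⟩
    · have h2 : M ≤ ‖y‖ := by
        simp only [mem_closedBall, dist_zero_right, not_le] at hy
        exact (le_max_left _ _).trans hy.le
      have h3 := hM y h2
      rw [abs_le] at h3
      linarith [h3.1]
  have hneg : pot g x0 < 0 := lt_of_le_of_lt h1 hc
  set A : Set E3 := {x | x ∈ Ω ∧ pot g x = pot g x0} with hA
  have hA' : A = closure Ω ∩ {x | pot g x = pot g x0} := by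
    ext x
    constructor
    · rintro ⟨h1, h2⟩
      exact ⟨subset_closure h1, h2⟩
    · rintro ⟨h1, h2⟩
      refine ⟨?_, h2⟩
      by_contra hx
      have h3 := hbd x h1 hx
      have h4 : pot g x = pot g x0 := h2
      linarith
  have hclosed : IsClosed A := by
    rw [hA']
    exact isClosed_closure.inter (isClosed_eq hcont continuous_const)
  have hne : A.Nonempty := by
    refine ⟨x0, ?_⟩
    rw [hA']
    exact ⟨hx0.1, rfl⟩
  have hopen : IsOpen A := by
    rw [Metric.isOpen_iff]
    intro a ha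
    have ha' : pot g a = pot g x0 := ha.2
    have hnb : Ω ∩ {x | pot g x < 0} ∈ 𝓝 a := by
      refine (hΩ.inter (isOpen_lt hcont continuous_const)).mem_nhds ⟨ha.1, ?_⟩
      show pot g a < 0
      rw [ha']; exact hneg
    obtain ⟨s, hs, hsub⟩ := Metric.mem_nhds_iff.1 hnb
    refine ⟨s, hs, ?_⟩
    obtain ⟨i1, i2⟩ := avg_pot g hg a s hs (by
      filter_upwards [h] with y hy hyb
      exact hy (hsub hyb).1 (hsub hyb).2)
    have hfin : volume (ball a s) < ∞ := measure_ball_lt_top
    have hci : IntegrableOn (fun _ : E3 => pot g x0) (ball a s) := integrableOn_const hfin.ne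
    have hge : ∀ᵐ x ∂(volume.restrict (ball a s)), 0 ≤ pot g x - pot g x0 := by
      filter_upwards [ae_restrict_mem measurableSet_ball] with x hx
      exact sub_nonneg.2 (hglob x (subset_closure (hsub hx).1))
    have hz : ∫ x in ball a s, (pot g x - pot g x0) = 0 := by
      have h1 : 0 ≤ ∫ x in ball a s, (pot g x - pot g x0) :=
        integral_nonneg_of_ae hge
      have h2 : ∫ x in ball a s, (pot g x - pot g x0) =
          (∫ x in ball a s, pot g x) - (volume (ball a s)).toReal * pot g x0 := by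
        rw [integral_sub i1 hci, setIntegral_const]
        simp [Measure.real]
      rw [h2] at h1 ⊢
      rw [ha'] at i2
      linarith
    have hae : (fun x => pot g x - pot g x0) =ᵐ[volume.restrict (ball a s)] 0 :=
      (integral_eq_zero_iff_of_nonneg_ae hge (i1.sub hci)).1 hz
    have heq : EqOn (pot g) (fun _ => pot g x0) (ball a s) := by
      refine Measure.eqOn_open_of_ae_eq (μ := volume) ?_ isOpen_ball hcont.continuousOn
        continuousOn_const
      filter_upwards [hae] with x hx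
      have : pot g x - pot g x0 = 0 := hx
      linarith
    exact fun x hx => ⟨(hsub hx).1, heq hx⟩
  have huniv : A = univ := IsClopen.eq_univ ⟨hclosed, hopen⟩ hne
  obtain ⟨y, hy⟩ : ∃ y : E3, M ≤ ‖y‖ := by
    refine ⟨EuclideanSpace.single 0 |M|, ?_⟩
    rw [PiLp.norm_single, Real.norm_of_nonneg (abs_nonneg M)]
    exact le_abs_self M
  have h4 := hM y hy
  have h5 : y ∈ A := by rw [huniv]; trivial
  rw [h5.2, abs_le] at h4
  linarith [h4.1]

end Pool.Agent.N261.NK
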